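import Mathlib

/-! # Definitions for problem MP_5175aa_an

The pair `A_0 = (1 1; 0 1)`, `A_1 = (1 0; 1 1)`, the families `{A_0, α A_1}`, their joint
spectral radius, weakly extremal words and optimal 1-ratios. The letter `1` is `true`,
the letter `0` is `false`. -/

open Filter Topology

namespace Pool.Agent.OJR

/-- Real two by two matrices. -/
abbrev M2 := Matrix (Fin 2) (Fin 2) ℝ

/-- The matrix `A_0`. -/
def A0 : M2 := !![1, 1; 0, 1]

/-- The matrix `A_1`. -/
def A1 : M2 := !![1, 0; 1, 1]

/-- The family: `A_0^{(α)} = A_0` and `A_1^{(α)} = α A_1`. -/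
def fam (α : ℝ) (i : Bool) : M2 := if i = true then α • A1 else A0

/-- The norm of a matrix used throughout: the sum of the absolute values of the entries. -/
def nrm (M : M2) : ℝ := ∑ i, ∑ j, |M i j|

/-- The product `A_{i_1} A_{i_2} ⋯ A_{i_n}` of the matrices of the family along a finite word. -/
def mprod (α : ℝ) (w : List Bool) : M2 := (w.map (fam α)).prod

/-- The joint spectral radius: the limsup over `n` of the maximum over `i_1, …, i_n` of
`‖A_{i_1} ⋯ A_{i_n}‖^{1/n}`. -/
noncomputable def jsr (α : ℝ) : ℝ :=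
  limsup (fun n : ℕ => ⨆ i : Fin n → Bool, nrm (mprod α (List.ofFn i)) ^ (1 / (n : ℝ))) atTop

/-- `𝒜^{(α)}(x,n) = A_{x_n} ⋯ A_{x_1}`; the letter `x_{k+1}` of the problem is `x k` here. -/
noncomputable def aprod (α : ℝ) (x : ℕ → Bool) : ℕ → M2
  | 0 => 1
  | n + 1 => fam α (x n) * aprod α x n

/-- The proportion of ones among the first `n` letters of `x`. -/
noncomputable def oneRatio (x : ℕ → Bool) (n : ℕ) : ℝ :=
  (((Finset.range n).filter (fun i => x i = true)).card : ℝ) / (n : ℝ)

/-- The infinite word `x` is weakly extremal for the family of `α`. -/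
def WeaklyExtremal (α : ℝ) (x : ℕ → Bool) : Prop :=
  Tendsto (fun n : ℕ => nrm (aprod α x n) ^ (1 / (n : ℝ))) atTop (𝓝 (jsr α))

/-- `r` is the unique optimal 1-ratio of the family of `α`. -/
def IsOptRatio (α r : ℝ) : Prop :=
  r ∈ Set.Icc (0 : ℝ) 1 ∧ ∀ x : ℕ → Bool, WeaklyExtremal α x → Tendsto (oneRatio x) atTop (𝓝 r)

end Pool.Agent.OJR
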