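import Pool.Agent.OJR.Nod

/-! The data of a node of the tree in numerical form, and the path to an irrational number. -/

open Matrix

namespace Pool.Agent.OJR

/-- What the analysis needs about a Farey pair `p/q < p'/q'`: `rX`, `rY` are the spectral radii of
the two products, `E` is the error factor. -/
structure NodeData (p q p' q' : ℕ) (rX rY E : ℝ) : Prop where
  far : p' * q = p * q' + 1
  q1 : 1 ≤ q
  q2 : 1 ≤ q'
  rX1 : 1 < rX
  rY1 : 1 < rY
  E1 : 1 ≤ E
  ub1 : ∀ (a b : ℕ) (w : List Bool), w.length = a * q + b * q' → w.count true = a * p + b * p' →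
    (ev A0 A1 w).trace ≤ 2 * (rX ^ a * (E * rY) ^ b)
  ub2 : ∀ (a b : ℕ) (w : List Bool), w.length = a * q + b * q' → w.count true = a * p + b * p' →
    (ev A0 A1 w).trace ≤ 2 * ((E * rX) ^ a * rY ^ b)
  lbX : ∀ m : ℕ, ∃ w : List Bool, w.length = m * q ∧ w.count true = m * p ∧
    rX ^ m ≤ sm (ev A0 A1 w)
  lbY : ∀ m : ℕ, ∃ w : List Bool, w.length = m * q' ∧ w.count true = m * p' ∧
    rY ^ m ≤ sm (ev A0 A1 w)
  lbZ : ∃ r : ℝ, rX * rY < r ∧ ∀ m : ℕ, ∃ w : List Bool, w.length = m * (q + q') ∧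
    w.count true = m * (p + p') ∧ r ^ m ≤ sm (ev A0 A1 w)

lemma lb_of {M : M2} {r : ℝ} {u : Fin 2 → ℝ} {w : List Bool} (hM : NN M) (h : Eig M r u)
    (e : ev A0 A1 w = M) (m : ℕ) : ∃ v : List Bool, v.length = m * w.length ∧
      v.count true = m * w.count true ∧ r ^ m ≤ sm (ev A0 A1 v) := by
  have key : ∃ v : List Bool, v.length = m * w.length ∧
      v.count true = m * w.count true ∧ ev A0 A1 v = M ^ m := by
    induction m with
    | zero => exact ⟨[], by simp, by simp, by simp [ev]⟩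
    | succ m ih =>
      obtain ⟨v, h1, h2, h3⟩ := ih
      refine ⟨w ++ v, ?_, ?_, ?_⟩
      · rw [List.length_append, h1]; ring
      · rw [List.count_append, h2]; ring
      · rw [ev_append, h3, e, pow_succ']
  obtain ⟨v, h1, h2, h3⟩ := key
  refine ⟨v, h1, h2, ?_⟩
  rw [h3]
  refine Eig.le_sm ?_ (h.pow m)
  rw [← h3]
  exact NN.ev NN.A0 NN.A1 v

lemma diag_one (w : List Bool) : 1 ≤ (ev A0 A1 w) 0 0 ∧ 1 ≤ (ev A0 A1 w) 1 1 := by
  induction w with
  | nil => simp [ev]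
  | cons b w ih =>
    have h := NN.ev NN.A0 NN.A1 w
    have h1 := h.n01
    have h2 := h.n10
    rw [ev]
    generalize ev A0 A1 w = M at *
    cases b <;> simp only [cond_true, cond_false] <;>
      simp [A0, A1, Matrix.mul_apply, Fin.sum_univ_two] <;>
      exact ⟨by linarith [ih.1, ih.2], by linarith [ih.1, ih.2]⟩

lemma fricke {X Y : M2} (G : Good X Y) : X.trace ^ 2 + Y.trace ^ 2 + (X * Y).trace ^ 2 -
    X.trace * Y.trace * (X * Y).trace = 5 := by
  have hX := G.dX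
  have hY := G.dY
  have hk := G.kk
  have h0 := cm_tr X Y
  rw [Matrix.det_fin_two] at hX hY
  have e1 : cm X Y 0 0 * cm X Y 0 0 + cm X Y 0 1 * cm X Y 1 0 = 1 := by
    have := congrFun (congrFun hk 0) 0
    simpa [Matrix.mul_apply, Fin.sum_univ_two] using this
  rw [Matrix.trace_fin_two] at h0
  have e2 : cm X Y 0 1 * cm X Y 1 0 - cm X Y 0 0 * cm X Y 1 1 = 1 := by
    have : cm X Y 1 1 = - cm X Y 0 0 := by linarith
    rw [this]; linarith
  simp only [cm, Matrix.sub_apply, Matrix.mul_apply, Fin.sum_univ_two] at e2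
  simp only [Matrix.trace_fin_two, Matrix.mul_apply, Fin.sum_univ_two]
  generalize X 0 0 = a at *
  generalize X 0 1 = b at *
  generalize X 1 0 = c at *
  generalize X 1 1 = d at *
  generalize Y 0 0 = a' at *
  generalize Y 0 1 = b' at *
  generalize Y 1 0 = c' at *
  generalize Y 1 1 = d' at *
  have id : (a + d) ^ 2 * (a' * d' - b' * c') + (a' + d') ^ 2 * (a * d - b * c) +
      (a * a' + b * c' + (c * b' + d * d')) ^ 2 -
      (a + d) * (a' + d') * (a * a' + b * c' + (c * b' + d * d')) -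
      4 * ((a * d - b * c) * (a' * d' - b' * c')) =
      (a * b' + b * d' - (a' * b + b' * d)) * (c * a' + d * c' - (c' * a + d' * c)) -
      (a * a' + b * c' - (a' * a + b' * c)) * (c * b' + d * d' - (c' * b + d' * d)) := by
    ring
  rw [hX, hY, e2] at id
  linarith

/-- Strict supermultiplicativity. -/
lemma rad_mul_lt {r t R x y z : ℝ} (hr : 1 < r) (ht : 1 < t) (hR : 1 < R) (hx : r + 1 / r = x)
    (hy : t + 1 / t = y) (hz : R + 1 / R = z) (h : x ^ 2 + y ^ 2 + z ^ 2 - x * y * z = 5)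
    (hzx : x ≤ z) (hzy : y ≤ z) : r * t < R := by
  by_contra hc
  push Not at hc
  have hr0 : 0 < r := by linarith
  have ht0 : 0 < t := by linarith
  have hR0 : 0 < R := by linarith
  have h1 : (z - (r * t + 1 / (r * t))) * (z - (r / t + t / r)) = 1 := by
    have e : (z - (r * t + 1 / (r * t))) * (z - (r / t + t / r)) =
      x ^ 2 + y ^ 2 + z ^ 2 - x * y * z - 4 := by
      rw [← hx, ← hy]
      field_simp
      ring
    rw [e, h]; norm_num
  have h2 : z ≤ r * t + 1 / (r * t) := by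
    rw [← hz]
    have hrt : 1 < r * t := by nlinarith
    have e : r * t + 1 / (r * t) - (R + 1 / R) = (r * t - R) * (r * t * R - 1) / (r * t * R) := by
      field_simp
      ring
    have : 0 ≤ (r * t - R) * (r * t * R - 1) / (r * t * R) := by
      apply div_nonneg
      · apply mul_nonneg (by linarith)
        nlinarith
      · positivity
    linarith
  have h3 : r / t + t / r ≤ z := by
    rcases le_total t r with h4 | h4
    · refine le_trans ?_ hzx
      rw [← hx]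
      have e : r + 1 / r - (r / t + t / r) = (t - 1) * (r ^ 2 - t) / (r * t) := by
        field_simp
        ring
      have : 0 ≤ (t - 1) * (r ^ 2 - t) / (r * t) := by
        apply div_nonneg
        · apply mul_nonneg (by linarith)
          nlinarith
        · positivity
      linarith
    · refine le_trans ?_ hzy
      rw [← hy]
      have e : t + 1 / t - (r / t + t / r) = (r - 1) * (t ^ 2 - r) / (r * t) := by
        field_simp
        ring
      have : 0 ≤ (r - 1) * (t ^ 2 - r) / (r * t) := by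
        apply div_nonneg
        · apply mul_nonneg (by linarith)
          nlinarith
        · positivity
      linarith
  nlinarith

variable {X Y P : M2} {p q p' q' : ℕ}

lemma Node.data (h : Node X Y P p q p' q') (hX1 : 0 < X 0 1) (hX2 : 0 < X 1 0)
    (hY1 : 0 < Y 0 1) (hY2 : 0 < Y 1 0) (hP1 : 0 < P 0 1) (hP2 : 0 < P 1 0) :
    ∃ rX rY : ℝ, NodeData p q p' q' rX rY (1 + 1 / (P 0 1 * P 1 0)) := by
  obtain ⟨hX, hY, hP⟩ := h.nn
  obtain ⟨-, -, ⟨n, Z, hZ, e1⟩, ⟨n', Z', hZ', e2⟩⟩ := h.cen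
  obtain ⟨rX, u, r1, tX, hu⟩ := eig hX hX1 hX2
  obtain ⟨rY, v, r2, tY, hv⟩ := eig hY hY1 hY2
  have cu := in_cone hu (by linarith) hZ e1
  have cv := in_cone hv (by linarith) hZ' e2
  have hPP : 0 < P 0 1 * P 1 0 := mul_pos hP1 hP2
  set E : ℝ := 1 + 1 / (P 0 1 * P 1 0) with hE
  have hE1 : 1 ≤ E := by rw [hE]; have : 0 < 1 / (P 0 1 * P 1 0) := by positivity
                         linarith
  have hE2 : P 0 0 * P 1 1 = E * (P 0 1 * P 1 0) := by
    rw [hE]
    have := hP.det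
    field_simp
    linarith
  have c1 : u 1 * v 0 ≤ E * (u 0 * v 1) := by
    have := cone_cmp hP cu cv
    rw [hE2] at this
    refine le_of_mul_le_mul_right ?_ hPP
    linarith
  have c2 : v 1 * u 0 ≤ E * (v 0 * u 1) := by
    have := cone_cmp hP cv cu
    rw [hE2] at this
    refine le_of_mul_le_mul_right ?_ hPP
    linarith
  have sY : SubE Y (E * rY) u := sub_cross hY hv hE1 hu.u0 hu.u1 c1 (by linarith)
  have sX : SubE X (E * rX) v := sub_cross hX hu hE1 hv.u0 hv.u1 c2 (by linarith)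
  obtain ⟨⟨wX, a1, a2, a3⟩, ⟨wY, b1, b2, b3⟩⟩ := h.words
  obtain ⟨f1, f2, f3⟩ := h.far
  have hXY : NN (X * Y) := hX.mul hY
  have hXY1 : 0 < (X * Y) 0 1 := by
    have := hX.pos; have := hY.pos
    simp only [Matrix.mul_apply, Fin.sum_univ_two]
    nlinarith [mul_pos this.2 hX1, mul_nonneg hX.n00 hY.n01, mul_pos hX1 this.2]
  have hXY2 : 0 < (X * Y) 1 0 := by
    have h3 := hX.pos; have := hY.pos
    simp only [Matrix.mul_apply, Fin.sum_univ_two]
    nlinarith [mul_pos hX2 this.1, mul_pos h3.2 hY2]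
  obtain ⟨rZ, wv, r3, tZ, hw⟩ := eig hXY hXY1 hXY2
  have dX := diag_one wX
  have dY := diag_one wY
  rw [a1] at dX
  rw [b1] at dY
  have hlt : rX * rY < rZ := by
    refine rad_mul_lt r1 r2 r3 tX tY tZ (fricke h.good) ?_ ?_
    · simp only [Matrix.trace_fin_two, Matrix.mul_apply, Fin.sum_univ_two]
      nlinarith [mul_le_mul_of_nonneg_left dY.1 hX.n00, mul_le_mul_of_nonneg_left dY.2 hX.n11,
        mul_pos hX1 hY2, mul_pos hX2 hY1]
    · simp only [Matrix.trace_fin_two, Matrix.mul_apply, Fin.sum_univ_two]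
      nlinarith [mul_le_mul_of_nonneg_left dX.1 hY.n00, mul_le_mul_of_nonneg_left dX.2 hY.n11,
        mul_pos hX1 hY2, mul_pos hX2 hY1]
  refine ⟨rX, rY, ⟨f1, f2, f3, r1, r2, hE1, ?_, ?_, ?_, ?_, ?_⟩⟩
  · intro a b w h1 h2
    refine h.claimA a b _ ?_ w h1 h2
    intro x hx1 hx2
    have := SubE.ev hX hY (by linarith) (by positivity) hu.sub sY x
    rw [hx1, hx2] at this
    exact this.tr (NN.ev hX hY x) hu.u0 hu.u1
  · intro a b w h1 h2
    refine h.claimA a b _ ?_ w h1 h2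
    intro x hx1 hx2
    have := SubE.ev hX hY (by positivity) (by linarith) sX hv.sub x
    rw [hx1, hx2] at this
    exact this.tr (NN.ev hX hY x) hv.u0 hv.u1
  · intro m
    obtain ⟨x, x1, x2, x3⟩ := lb_of hX hu a1 m
    exact ⟨x, by rw [x1, a2], by rw [x2, a3], x3⟩
  · intro m
    obtain ⟨x, x1, x2, x3⟩ := lb_of hY hv b1 m
    exact ⟨x, by rw [x1, b2], by rw [x2, b3], x3⟩
  · refine ⟨rZ, hlt, fun m => ?_⟩
    obtain ⟨x, x1, x2, x3⟩ := lb_of hXY hw (w := wX ++ wY) (by rw [ev_append, a1, b1]) m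
    exact ⟨x, by rw [x1, List.length_append, a2, b2], by rw [x2, List.count_append, a3, b3], x3⟩

/-! ### The path to an irrational number -/

/-- All entries are at least `c`. -/
def Ge (M : M2) (c : ℝ) : Prop := c ≤ M 0 0 ∧ c ≤ M 0 1 ∧ c ≤ M 1 0 ∧ c ≤ M 1 1

lemma Ge.mul {M N : M2} {c : ℝ} (h : Ge M 1) (k : Ge N c) (hc : 0 ≤ c) : Ge (M * N) (2 * c) := by
  obtain ⟨a, b, d, e⟩ := h
  obtain ⟨a', b', d', e'⟩ := k
  refine ⟨?_, ?_, ?_, ?_⟩ <;> simp only [Matrix.mul_apply, Fin.sum_univ_two] <;> nlinarith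

lemma Ge.mono {M : M2} {c d : ℝ} (h : Ge M c) (k : d ≤ c) : Ge M d :=
  ⟨k.trans h.1, k.trans h.2.1, k.trans h.2.2.1, k.trans h.2.2.2⟩

lemma A0_pow (k : ℕ) : A0 ^ k = !![1, (k : ℝ); 0, 1] := by
  induction k with
  | zero =>
    ext i j
    fin_cases i <;> fin_cases j <;> simp
  | succ k ih =>
    rw [pow_succ, ih]
    ext i j
    fin_cases i <;> fin_cases j <;> simp [A0] <;> ring

lemma node_first (k : ℕ) : Node A0 (A0 ^ k * A1) (A0 ^ k) 0 1 1 (k + 1) := by
  induction k with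
  | zero => simpa using Node.root
  | succ k ih =>
    have := ih.left
    rw [← mul_assoc, ← pow_succ', zero_add, show 1 + (k + 1) = k + 1 + 1 by ring] at this
    exact this

lemma node_start (k : ℕ) (hk : 1 ≤ k) : ∃ X Y P : M2, Node X Y P 1 (k + 2) 1 (k + 1) ∧ Ge X 1 ∧
    Ge Y 1 ∧ Ge P 1 := by
  refine ⟨A0 ^ k * A1 * A0, A0 ^ k * A1, A0 ^ k * A1 * A0 ^ k, ?_, ?_, ?_, ?_⟩
  · have := (node_first k).right
    rw [zero_add, show 1 + (k + 1) = k + 2 by ring] at this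
    exact this
  · have hk' : (1 : ℝ) ≤ k := by exact_mod_cast hk
    rw [A0_pow]
    refine ⟨?_, ?_, ?_, ?_⟩ <;> simp [A0, A1] <;> linarith
  · have hk' : (1 : ℝ) ≤ k := by exact_mod_cast hk
    rw [A0_pow]
    refine ⟨?_, ?_, ?_, ?_⟩ <;> simp [A1] <;> linarith
  · have hk' : (1 : ℝ) ≤ k := by exact_mod_cast hk
    rw [A0_pow]
    refine ⟨?_, ?_, ?_, ?_⟩ <;> simp [A1] <;> nlinarith

lemma exists_k {γ : ℝ} (hγ : Irrational γ) (h0 : 0 < γ) (h1 : γ < 1 / 2) :
    ∃ k : ℕ, 1 ≤ k ∧ 1 < γ * ((k + 2 : ℕ) : ℝ) ∧ γ * ((k + 1 : ℕ) : ℝ) < 1 := by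
  have h2 : 2 < 1 / γ := by
    rw [lt_div_iff₀ h0]; linarith
  have h3 : 2 ≤ ⌊1 / γ⌋₊ := Nat.le_floor (by exact_mod_cast h2.le)
  obtain ⟨k, hk⟩ : ∃ k, ⌊1 / γ⌋₊ = k + 1 := ⟨⌊1 / γ⌋₊ - 1, by omega⟩
  refine ⟨k, by omega, ?_, ?_⟩
  · have h4 := Nat.lt_floor_add_one (1 / γ)
    rw [hk, div_lt_iff₀ h0] at h4
    push_cast at h4 ⊢
    linarith
  · have h5 : ((k + 1 : ℕ) : ℝ) ≤ 1 / γ := by
      rw [← hk]; exact Nat.floor_le (by positivity)
    rw [le_div_iff₀ h0] at h5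
    rcases h5.lt_or_eq with h6 | h6
    · linarith
    · exfalso
      have h7 : γ = 1 / ((k + 1 : ℕ) : ℝ) := by
        have : ((k + 1 : ℕ) : ℝ) ≠ 0 := by positivity
        field_simp
        linarith
      apply hγ
      exact ⟨1 / ((k + 1 : ℕ) : ℚ), by rw [h7]; push_cast; ring⟩

lemma path {γ : ℝ} (hγ : Irrational γ) (h0 : 0 < γ) (h1 : γ < 1 / 2) :
    ∃ C : ℝ, 0 < C ∧ ∀ j : ℕ, ∃ (X Y P : M2) (p q p' q' : ℕ), Node X Y P p q p' q' ∧
      (p : ℝ) < γ * q ∧ γ * q' < p' ∧ Ge X 1 ∧ Ge Y 1 ∧ Ge P (2 ^ j) ∧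
      ((q + q' : ℕ) : ℝ) ≤ C * 2 ^ j ∧ j ≤ q + q' := by
  obtain ⟨k, hk, hk1, hk2⟩ := exists_k hγ h0 h1
  obtain ⟨X0, Y0, P0, hn, gX, gY, gP⟩ := node_start k hk
  refine ⟨((k + 2 + (k + 1) : ℕ) : ℝ), by positivity, fun j => ?_⟩
  induction j with
  | zero =>
    exact ⟨X0, Y0, P0, 1, k + 2, 1, k + 1, hn, by simpa using hk1, by simpa using hk2, gX, gY,
      by simpa using gP, by simp, by omega⟩
  | succ j ih =>
    obtain ⟨X, Y, P, p, q, p', q', hn, i1, i2, i3, i4, i5, i6, i7⟩ := ih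
    obtain ⟨f1, f2, f3⟩ := hn.far
    have hpow : (0 : ℝ) ≤ 2 ^ j := by positivity
    rcases lt_trichotomy (γ * ((q + q' : ℕ) : ℝ)) ((p + p' : ℕ) : ℝ) with h | h | h
    · refine ⟨X, X * Y, X * P, p, q, p + p', q + q', hn.left, i1, h, i3,
        (i3.mul i4 (by norm_num)).mono (by norm_num), ?_, ?_, by omega⟩
      · rw [pow_succ, mul_comm]; exact i3.mul i5 hpow
      · rw [pow_succ]
        push_cast at i6 ⊢
        have : (0 : ℝ) ≤ q' := by positivity
        have : (0 : ℝ) ≤ q := by positivity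
        nlinarith
    · exfalso
      have hne : ((q + q' : ℕ) : ℝ) ≠ 0 := by
        have : (0 : ℝ) < ((q + q' : ℕ) : ℝ) := by exact_mod_cast (by omega : 0 < q + q')
        exact this.ne'
      have h7 : γ = ((p + p' : ℕ) : ℝ) / ((q + q' : ℕ) : ℝ) := by
        field_simp
        exact h
      apply hγ
      exact ⟨((p + p' : ℕ) : ℚ) / ((q + q' : ℕ) : ℚ), by rw [h7]; push_cast; ring⟩
    · refine ⟨Y * X, Y, Y * P, p + p', q + q', p', q', hn.right, h, i2,
        (i4.mul i3 (by norm_num)).mono (by norm_num), i4, ?_, ?_, by omega⟩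
      · rw [pow_succ, mul_comm]; exact i4.mul i5 hpow
      · rw [pow_succ]
        push_cast at i6 ⊢
        have : (0 : ℝ) ≤ q' := by positivity
        have : (0 : ℝ) ≤ q := by positivity
        nlinarith

/-- Arbitrarily good nodes around an irrational number. -/
lemma good_nodes {γ : ℝ} (hγ : Irrational γ) (h0 : 0 < γ) (h1 : γ < 1 / 2) (η : ℝ) (hη : 0 < η) :
    ∃ (p q p' q' : ℕ) (rX rY E : ℝ), NodeData p q p' q' rX rY E ∧ (p : ℝ) < γ * q ∧
      γ * q' < p' ∧ ((q : ℝ) + q') * (E - 1) < η ∧ 1 / ((q : ℝ) * q') < η := by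
  obtain ⟨C, hC, hp⟩ := path hγ h0 h1
  obtain ⟨j1, hj1⟩ := pow_unbounded_of_one_lt (C / η) (one_lt_two)
  obtain ⟨j2, hj2⟩ := exists_nat_gt (1 / η)
  obtain ⟨X, Y, P, p, q, p', q', hn, i1, i2, i3, i4, i5, i6, i7⟩ := hp (max j1 (j2 + 1))
  obtain ⟨f1, f2, f3⟩ := hn.far
  set j := max j1 (j2 + 1) with hj
  have hpow1 : (1 : ℝ) ≤ 2 ^ j := one_le_pow₀ (by norm_num)
  have hpow : (0 : ℝ) < 2 ^ j := by positivity
  obtain ⟨rX, rY, hd⟩ := hn.data (by linarith [i3.2.1]) (by linarith [i3.2.2.1])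
    (by linarith [i4.2.1]) (by linarith [i4.2.2.1]) (by linarith [i5.2.1])
    (by linarith [i5.2.2.1])
  refine ⟨p, q, p', q', rX, rY, _, hd, i1, i2, ?_, ?_⟩
  · rw [add_sub_cancel_left]
    have hPP : (2 : ℝ) ^ j * 2 ^ j ≤ P 0 1 * P 1 0 :=
      mul_le_mul i5.2.1 i5.2.2.1 hpow.le (by linarith [i5.2.1])
    have hPP0 : 0 < P 0 1 * P 1 0 := by nlinarith
    have h3 : C / η < 2 ^ j := lt_of_lt_of_le hj1
      (pow_le_pow_right₀ (by norm_num) (le_max_left _ _))
    rw [div_lt_iff₀ hη] at h3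
    rw [mul_one_div, div_lt_iff₀ hPP0]
    push_cast at i6
    calc (q : ℝ) + q' ≤ C * 2 ^ j := i6
      _ < (2 ^ j * η) * 2 ^ j := by exact mul_lt_mul_of_pos_right h3 hpow
      _ = η * (2 ^ j * 2 ^ j) := by ring
      _ ≤ η * (P 0 1 * P 1 0) := by exact mul_le_mul_of_nonneg_left hPP hη.le
  · have h4 : j2 + 1 ≤ q + q' := le_trans (le_max_right _ _) i7
    have h5 : (j2 : ℝ) ≤ (q : ℝ) * q' := by
      have : j2 ≤ q * q' := by nlinarith
      exact_mod_cast this
    have hq : (0 : ℝ) < (q : ℝ) * q' := by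
      have : 0 < q * q' := by positivity
      exact_mod_cast this
    rw [div_lt_iff₀ hq]
    rw [div_lt_iff₀ hη] at hj2
    nlinarith

end Pool.Agent.OJR
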