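import Pool.Agent.OJR.Nod
import Pool.Agent.OJR.Pth

/-! Growth of products: the exponent `L s`, existence of weakly extremal words. -/

open Matrix Filter Topology

namespace Pool.Agent.OJR

/-! ### The sum of the entries -/

lemma sm_ge (w : List Bool) : 2 ≤ sm (ev A0 A1 w) := by
  have h := NN.ev NN.A0 NN.A1 w
  have h1 := diag_one w
  have := h.n01
  have := h.n10
  rw [sm]; linarith [h1.1, h1.2]

lemma sm_pos (w : List Bool) : 0 < sm (ev A0 A1 w) := by linarith [sm_ge w]

lemma sm_mul_le {M N : M2} (h : NN M) (k : NN N) : sm (M * N) ≤ sm M * sm N := by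
  obtain ⟨a, b, c, d, -⟩ := h
  obtain ⟨a', b', c', d', -⟩ := k
  simp only [sm, Matrix.mul_apply, Fin.sum_univ_two]
  nlinarith [mul_nonneg a c', mul_nonneg a d', mul_nonneg b a', mul_nonneg b b',
    mul_nonneg c c', mul_nonneg c d', mul_nonneg d a', mul_nonneg d b']

lemma sm_conn {M N : M2} (h : NN M) (k : NN N) : sm M * sm N ≤ sm (M * (A0 * A1) * N) := by
  obtain ⟨a, b, c, d, -⟩ := h
  obtain ⟨a', b', c', d', -⟩ := k
  have e : A0 * A1 = !![2, 1; 1, 1] := by
    ext i j
    fin_cases i <;> fin_cases j <;> simp [A0, A1] <;> norm_num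
  rw [e]
  simp [sm, Matrix.mul_apply, Fin.sum_univ_two]
  nlinarith [mul_nonneg a a', mul_nonneg a b', mul_nonneg c a', mul_nonneg c b']

lemma tr_conn {M : M2} (h : NN M) : sm M ≤ (M * (A0 * A1)).trace := by
  obtain ⟨a, b, c, d, -⟩ := h
  have e : A0 * A1 = !![2, 1; 1, 1] := by
    ext i j
    fin_cases i <;> fin_cases j <;> simp [A0, A1] <;> norm_num
  rw [e, Matrix.trace_fin_two]
  simp [sm, Matrix.mul_apply, Fin.sum_univ_two]
  nlinarith

lemma ev_FT : ev A0 A1 [false, true] = A0 * A1 := by simp [ev]

/-! ### Values of words -/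

/-- The value of a word: the logarithm of `α^{ones} · (sum of the entries)`, `s = log α`. -/
noncomputable def val (s : ℝ) (w : List Bool) : ℝ :=
  (w.count true : ℝ) * s + Real.log (sm (ev A0 A1 w))

/-- The maximal value of the words of length `n`. -/
noncomputable def gg (s : ℝ) (n : ℕ) : ℝ := ⨆ i : Fin n → Bool, val s (List.ofFn i)

lemma val_le_gg (s : ℝ) (w : List Bool) : val s w ≤ gg s w.length := by
  have h : val s w = val s (List.ofFn w.get) := by rw [List.ofFn_get]
  rw [h]
  exact le_ciSup (f := fun i : Fin w.length → Bool => val s (List.ofFn i))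
    (Set.finite_range _).bddAbove w.get

lemma gg_att (s : ℝ) (n : ℕ) : ∃ w : List Bool, w.length = n ∧ val s w = gg s n := by
  obtain ⟨i, hi⟩ := exists_eq_ciSup_of_finite (f := fun i : Fin n → Bool => val s (List.ofFn i))
  exact ⟨List.ofFn i, by simp, hi⟩

lemma val_append_le (s : ℝ) (u v : List Bool) : val s (u ++ v) ≤ val s u + val s v := by
  have h1 := sm_mul_le (NN.ev NN.A0 NN.A1 u) (NN.ev NN.A0 NN.A1 v)
  rw [← ev_append] at h1
  have h2 := Real.log_le_log (sm_pos _) h1
  rw [Real.log_mul (sm_pos _).ne' (sm_pos _).ne'] at h2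
  simp only [val, List.count_append]
  push_cast
  linarith

lemma val_conn (s : ℝ) (u v : List Bool) :
    val s u + s + val s v ≤ val s (u ++ [false, true] ++ v) := by
  have h1 := sm_conn (NN.ev NN.A0 NN.A1 u) (NN.ev NN.A0 NN.A1 v)
  rw [← ev_FT, ← ev_append, ← ev_append] at h1
  have h2 := Real.log_le_log (mul_pos (sm_pos _) (sm_pos _)) h1
  rw [Real.log_mul (sm_pos _).ne' (sm_pos _).ne'] at h2
  have e : (u ++ [false, true] ++ v).count true = u.count true + 1 + v.count true := by
    rw [List.count_append, List.count_append]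
    simp
  rw [val, val, val, e]
  push_cast
  linarith

lemma gg_sub (s : ℝ) : Subadditive (gg s) := by
  intro m n
  obtain ⟨w, h1, h2⟩ := gg_att s (m + n)
  rw [← h2]
  have h3 : w = w.take m ++ w.drop m := (List.take_append_drop m w).symm
  have h4 : (w.take m).length = m := by rw [List.length_take]; omega
  have h5 : (w.drop m).length = n := by rw [List.length_drop]; omega
  have h6 := val_le_gg s (w.take m)
  have h7 := val_le_gg s (w.drop m)
  rw [h4] at h6
  rw [h5] at h7
  have h8 := val_append_le s (w.take m) (w.drop m)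
  rw [← h3] at h8
  linarith

lemma log_sm_nonneg (w : List Bool) : 0 ≤ Real.log (sm (ev A0 A1 w)) :=
  Real.log_nonneg (by linarith [sm_ge w])

lemma gg_nonneg (s : ℝ) (n : ℕ) : 0 ≤ gg s n := by
  have h := val_le_gg s (List.replicate n false)
  rw [List.length_replicate] at h
  refine le_trans ?_ h
  rw [val]
  have : (List.replicate n false).count true = 0 := by
    rw [List.count_replicate]; simp
  rw [this]
  have := log_sm_nonneg (List.replicate n false)
  simp
  exact this

lemma gg_ge (s : ℝ) (n : ℕ) : n * s ≤ gg s n := by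
  have h := val_le_gg s (List.replicate n true)
  rw [List.length_replicate] at h
  refine le_trans ?_ h
  rw [val]
  have : (List.replicate n true).count true = n := by
    rw [List.count_replicate]; simp
  rw [this]
  have := log_sm_nonneg (List.replicate n true)
  linarith

lemma gg_bdd (s : ℝ) : BddBelow (Set.range fun n => gg s n / n) := by
  refine ⟨0, ?_⟩
  rintro x ⟨n, rfl⟩
  exact div_nonneg (gg_nonneg s n) (Nat.cast_nonneg n)

/-- The exponent of growth, the logarithm of the joint spectral radius for `α = e^s`. -/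
noncomputable def LL (s : ℝ) : ℝ := (gg_sub s).lim

lemma LL_tendsto (s : ℝ) : Tendsto (fun n => gg s n / n) atTop (𝓝 (LL s)) :=
  (gg_sub s).tendsto_lim (gg_bdd s)

lemma LL_le (s : ℝ) (n : ℕ) : n * LL s ≤ gg s n := by
  rcases Nat.eq_zero_or_pos n with h | h
  · subst h
    simpa using gg_nonneg s 0
  · have h1 := (gg_sub s).lim_le_div (gg_bdd s) (n := n) (by omega)
    have h2 : (0 : ℝ) < n := by exact_mod_cast h
    rw [le_div_iff₀ h2] at h1
    have : (gg_sub s).lim = LL s := rfl
    rw [this] at h1
    linarith

/-- Blocks `w_1 01 w_2 01 ⋯ w_k 01`. -/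
def conc (l : List (List Bool)) : List Bool := (l.map (fun w => w ++ [false, true])).flatten

lemma conc_cons (w : List Bool) (l : List (List Bool)) :
    conc (w :: l) = w ++ [false, true] ++ conc l := by
  simp [conc]

lemma conc_append (l l' : List (List Bool)) : conc (l ++ l') = conc l ++ conc l' := by
  simp [conc]

lemma conc_rep_len (w : List Bool) (m : ℕ) :
    (conc (List.replicate m w)).length = m * (w.length + 2) := by
  induction m with
  | zero => simp [conc]
  | succ m ih =>
    rw [List.replicate_succ, conc_cons, List.length_append, List.length_append, ih]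
    simp
    ring

lemma conc_rep_count (w : List Bool) (m : ℕ) :
    (conc (List.replicate m w)).count true = m * (w.count true + 1) := by
  induction m with
  | zero => simp [conc]
  | succ m ih =>
    rw [List.replicate_succ, conc_cons, List.count_append, List.count_append, ih]
    simp
    ring

lemma val_nil (s : ℝ) : 0 ≤ val s [] := by
  rw [val]
  have := log_sm_nonneg []
  simp
  exact this

lemma val_conc (s : ℝ) (w : List Bool) (m : ℕ) :
    m * (val s w + s) ≤ val s (conc (List.replicate m w)) := by
  induction m with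
  | zero => simpa [conc] using val_nil s
  | succ m ih =>
    rw [List.replicate_succ, conc_cons]
    have := val_conn s w (conc (List.replicate m w))
    push_cast
    linarith

lemma gg_le (s : ℝ) (n : ℕ) : gg s n ≤ (n + 2) * LL s - s := by
  obtain ⟨w, h1, h2⟩ := gg_att s n
  have key : ∀ m : ℕ, (gg s n + s) / (n + 2) ≤ gg s ((m + 1) * (n + 2)) /
      (((m + 1) * (n + 2) : ℕ) : ℝ) := by
    intro m
    have h3 := val_conc s w (m + 1)
    have h4 := val_le_gg s (conc (List.replicate (m + 1) w))
    rw [conc_rep_len, h1] at h4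
    rw [h2] at h3
    have h5 : (0 : ℝ) < (n : ℝ) + 2 := by positivity
    have h6 : (0 : ℝ) < (m : ℝ) + 1 := by positivity
    push_cast at h3 ⊢
    rw [div_le_div_iff₀ h5 (by positivity)]
    have := h3.trans h4
    nlinarith
  have hsub : Tendsto (fun m : ℕ => (m + 1) * (n + 2)) atTop atTop := by
    apply tendsto_atTop_mono (f := fun m : ℕ => m)
    · intro m
      nlinarith
    · exact tendsto_id
  have h7 := (LL_tendsto s).comp hsub
  have h8 := ge_of_tendsto' h7 key
  have h5 : (0 : ℝ) < (n : ℝ) + 2 := by positivity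
  rw [div_le_iff₀ h5] at h8
  linarith

lemma LL_nonneg (s : ℝ) : 0 ≤ LL s :=
  ge_of_tendsto' (LL_tendsto s) (fun n => div_nonneg (gg_nonneg s n) (Nat.cast_nonneg n))

lemma LL_ge (s : ℝ) : s ≤ LL s := by
  refine ge_of_tendsto (LL_tendsto s) ?_
  filter_upwards [eventually_gt_atTop 0] with n hn
  have h2 : (0 : ℝ) < n := by exact_mod_cast hn
  rw [le_div_iff₀ h2]
  have := gg_ge s n
  linarith

/-- A lower bound through powers of one word. -/
lemma LL_lower (s : ℝ) {p q : ℕ} {r : ℝ} (hr : 0 < r)
    (h : ∀ m : ℕ, ∃ w : List Bool, w.length = m * q ∧ w.count true = m * p ∧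
      r ^ m ≤ sm (ev A0 A1 w)) : p * s + Real.log r ≤ q * LL s := by
  have key : ∀ m : ℕ, (m : ℝ) * (p * s + Real.log r) ≤ (m * q + 2) * LL s - s := by
    intro m
    obtain ⟨w, h1, h2, h3⟩ := h m
    have h4 := val_le_gg s w
    have h5 := gg_le s w.length
    rw [h1] at h4 h5
    have h6 := Real.log_le_log (by positivity) h3
    rw [Real.log_pow] at h6
    rw [val, h2] at h4
    push_cast at h4 h5
    linarith
  by_contra hc
  push Not at hc
  obtain ⟨m, hm⟩ := exists_nat_gt ((2 * LL s - s) / (p * s + Real.log r - q * LL s))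
  rw [div_lt_iff₀ (by linarith)] at hm
  have := key m
  nlinarith

/-! ### Prefixes of infinite words -/

/-- The first `n` letters of `x`, the newest letter first. -/
def pre (x : ℕ → Bool) : ℕ → List Bool
  | 0 => []
  | n + 1 => x n :: pre x n

lemma pre_length (x : ℕ → Bool) (n : ℕ) : (pre x n).length = n := by
  induction n with
  | zero => rfl
  | succ n ih => simp [pre, ih]

lemma pre_congr {x y : ℕ → Bool} {n : ℕ} (h : ∀ i < n, x i = y i) : pre x n = pre y n := by
  induction n with
  | zero => rfl
  | succ n ih =>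
    rw [pre, pre, h n (by omega), ih (fun i hi => h i (by omega))]

lemma pre_split (x : ℕ → Bool) {n N : ℕ} (h : n ≤ N) :
    ∃ u : List Bool, pre x N = u ++ pre x n ∧ u.length = N - n := by
  induction N, h using Nat.le_induction with
  | base => exact ⟨[], by simp, by simp⟩
  | succ N hN ih =>
    obtain ⟨u, h1, h2⟩ := ih
    exact ⟨x N :: u, by rw [pre, h1]; rfl, by rw [List.length_cons, h2]; omega⟩

lemma exists_pre (w : List Bool) : ∃ x : ℕ → Bool, pre x w.length = w := by
  induction w with
  | nil => exact ⟨fun _ => false, rfl⟩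
  | cons b w ih =>
    obtain ⟨x, hx⟩ := ih
    refine ⟨Function.update x w.length b, ?_⟩
    rw [List.length_cons, pre, Function.update_self]
    congr 1
    rw [← hx, pre_length]
    apply pre_congr
    intro i hi
    rw [Function.update_of_ne (by omega)]

lemma val_pre_le (s : ℝ) (x : ℕ → Bool) (n : ℕ) : val s (pre x n) ≤ gg s n := by
  have := val_le_gg s (pre x n)
  rwa [pre_length] at this

/-- There is an infinite word all of whose prefixes have nearly maximal value. -/
lemma exists_extremal (s : ℝ) : ∃ x : ℕ → Bool, ∀ n : ℕ,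
    ((n : ℝ) - 2) * LL s + s ≤ val s (pre x n) := by
  let t : ℕ → Set (ℕ → Bool) := fun N => {x | ∀ n ≤ N, ((n : ℝ) - 2) * LL s + s ≤ val s (pre x n)}
  have h := IsCompact.nonempty_iInter_of_sequence_nonempty_isCompact_isClosed t ?_ ?_ ?_ ?_
  · obtain ⟨x, hx⟩ := h
    refine ⟨x, fun n => ?_⟩
    exact (Set.mem_iInter.mp hx n) n le_rfl
  · intro N x hx n hn
    exact hx n (by omega)
  · intro N
    obtain ⟨w, h1, h2⟩ := gg_att s N
    obtain ⟨x, hx⟩ := exists_pre w
    rw [h1] at hx
    refine ⟨x, fun n hn => ?_⟩
    obtain ⟨u, h3, h4⟩ := pre_split x hn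
    have h5 := val_append_le s u (pre x n)
    rw [← h3, hx, h2] at h5
    have h6 := val_le_gg s u
    have h7 := gg_le s u.length
    rw [h4] at h6 h7
    have h8 := LL_le s N
    rw [Nat.cast_sub hn] at h7
    nlinarith
  · have hc : IsClosed (t 0) := by
      have : t 0 = Set.univ ∨ t 0 = ∅ := by
        by_cases h : ((0 : ℕ) - 2 : ℝ) * LL s + s ≤ val s []
        · left
          ext x
          simp only [t, Set.mem_setOf_eq, Set.mem_univ, iff_true]
          intro n hn
          have : n = 0 := by omega
          subst this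
          exact h
        · right
          ext x
          simp only [t, Set.mem_setOf_eq, Set.mem_empty_iff_false, iff_false]
          intro hx
          exact h (hx 0 le_rfl)
      rcases this with h | h <;> rw [h]
      · exact isClosed_univ
      · exact isClosed_empty
    exact hc.isCompact
  · intro N
    have e : t N = ⋂ n ∈ Set.Iic N, {x : ℕ → Bool | ((n : ℝ) - 2) * LL s + s ≤
        val s (pre x n)} := by
      ext x
      simp [t]
    rw [e]
    refine isClosed_biInter (fun n _ => ?_)
    let r : (ℕ → Bool) → (Fin n → Bool) := fun x i => x i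
    have hr : Continuous r := continuous_pi (fun i => continuous_apply _)
    let f : (Fin n → Bool) → ℝ := fun y => val s (pre (fun k => if h : k < n then y ⟨k, h⟩
      else false) n)
    have hf : ∀ x : ℕ → Bool, f (r x) = val s (pre x n) := by
      intro x
      simp only [f, r]
      congr 1
      apply pre_congr
      intro i hi
      simp [hi]
    have e2 : {x : ℕ → Bool | ((n : ℝ) - 2) * LL s + s ≤ val s (pre x n)} =
        r ⁻¹' {y | ((n : ℝ) - 2) * LL s + s ≤ f y} := by
      ext x
      simp [hf]
    rw [e2]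
    exact (isClosed_discrete _).preimage hr

lemma tendsto_val (s : ℝ) {x : ℕ → Bool} (h : ∀ n : ℕ,
    ((n : ℝ) - 2) * LL s + s ≤ val s (pre x n)) :
    Tendsto (fun n => val s (pre x n) / n) atTop (𝓝 (LL s)) := by
  have h1 : Tendsto (fun n : ℕ => LL s + (s - 2 * LL s) / (n : ℝ)) atTop (𝓝 (LL s)) := by
    have := tendsto_const_div_atTop_nhds_zero_nat (s - 2 * LL s)
    simpa using this.const_add (LL s)
  refine tendsto_of_tendsto_of_tendsto_of_le_of_le' h1 (LL_tendsto s) ?_ ?_
  · filter_upwards [eventually_gt_atTop 0] with n hn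
    have h2 : (0 : ℝ) < n := by exact_mod_cast hn
    rw [le_div_iff₀ h2]
    have := h n
    have e : (LL s + (s - 2 * LL s) / (n : ℝ)) * n = ((n : ℝ) - 2) * LL s + s := by
      field_simp
      ring
    rw [e]
    exact this
  · filter_upwards [eventually_gt_atTop 0] with n hn
    have h2 : (0 : ℝ) < n := by exact_mod_cast hn
    exact div_le_div_of_nonneg_right (val_pre_le s x n) h2.le

end Pool.Agent.OJR
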