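import Pool.Agent.OJR.Jsr

/-! The joint spectral radius in terms of the exponent. -/

open Matrix Filter Topology

namespace Pool.Agent.OJR

lemma mprod_eq (α : ℝ) (w : List Bool) : mprod α w = α ^ (w.count true) • ev A0 A1 w := by
  induction w with
  | nil => simp [mprod, ev]
  | cons b w ih =>
    rw [mprod] at ih ⊢
    rw [List.map_cons, List.prod_cons, ih]
    cases b
    · simp [fam, ev]
    · simp [fam, ev, pow_succ, smul_smul, mul_comm]

lemma nrm_smul (c : ℝ) (M : M2) : nrm (c • M) = |c| * nrm M := by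
  simp [nrm, Fin.sum_univ_two, abs_mul]
  ring

lemma nrm_eq {M : M2} (h : NN M) : nrm M = sm M := by
  obtain ⟨a, b, c, d, -⟩ := h
  simp only [nrm, sm, Fin.sum_univ_two]
  rw [abs_of_nonneg a, abs_of_nonneg b, abs_of_nonneg c, abs_of_nonneg d]
  ring

lemma nrm_mprod (α : ℝ) (h0 : 0 ≤ α) (w : List Bool) :
    nrm (mprod α w) = α ^ (w.count true) * sm (ev A0 A1 w) := by
  rw [mprod_eq, nrm_smul, nrm_eq (NN.ev NN.A0 NN.A1 w), abs_of_nonneg (by positivity)]

lemma nrm_mprod_exp (α : ℝ) (h0 : 0 < α) (w : List Bool) :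
    nrm (mprod α w) = Real.exp (val (Real.log α) w) := by
  rw [nrm_mprod α h0.le, val, Real.exp_add, Real.exp_log (sm_pos w), mul_comm (_ : ℝ) (Real.log α),
    Real.exp_mul, Real.exp_log h0, Real.rpow_natCast]

lemma rpow_exp (v : ℝ) (n : ℕ) : Real.exp v ^ (1 / (n : ℝ)) = Real.exp (v / n) := by
  rw [← Real.exp_mul, mul_one_div]

lemma sup_eq (α : ℝ) (h0 : 0 < α) (n : ℕ) :
    (⨆ i : Fin n → Bool, nrm (mprod α (List.ofFn i)) ^ (1 / (n : ℝ))) =
      Real.exp (gg (Real.log α) n / n) := by
  apply le_antisymm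
  · apply ciSup_le
    intro i
    rw [nrm_mprod_exp α h0, rpow_exp]
    apply Real.exp_le_exp.mpr
    apply div_le_div_of_nonneg_right _ (Nat.cast_nonneg n)
    have := val_le_gg (Real.log α) (List.ofFn i)
    rwa [List.length_ofFn] at this
  · obtain ⟨i, hi⟩ := exists_eq_ciSup_of_finite
      (f := fun i : Fin n → Bool => val (Real.log α) (List.ofFn i))
    have h1 : Real.exp (gg (Real.log α) n / n) = nrm (mprod α (List.ofFn i)) ^ (1 / (n : ℝ)) := by
      rw [nrm_mprod_exp α h0, rpow_exp, hi]
      rfl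
    rw [h1]
    exact le_ciSup (f := fun i : Fin n → Bool => nrm (mprod α (List.ofFn i)) ^ (1 / (n : ℝ)))
      (Set.finite_range _).bddAbove i

lemma sup_tendsto (α : ℝ) (h0 : 0 < α) :
    Tendsto (fun n : ℕ => ⨆ i : Fin n → Bool, nrm (mprod α (List.ofFn i)) ^ (1 / (n : ℝ))) atTop
      (𝓝 (Real.exp (LL (Real.log α)))) := by
  have h := (Real.continuous_exp.tendsto _).comp (LL_tendsto (Real.log α))
  refine h.congr (fun n => ?_)
  rw [sup_eq α h0 n]
  rfl

lemma jsr_eq (α : ℝ) (h0 : 0 < α) : jsr α = Real.exp (LL (Real.log α)) :=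
  (sup_tendsto α h0).limsup_eq

lemma aprod_eq (α : ℝ) (x : ℕ → Bool) (n : ℕ) : aprod α x n = mprod α (pre x n) := by
  induction n with
  | zero => simp [aprod, mprod, pre]
  | succ n ih => rw [aprod, ih, mprod, mprod, pre, List.map_cons, List.prod_cons]

lemma we_iff (α : ℝ) (h0 : 0 < α) (x : ℕ → Bool) : WeaklyExtremal α x ↔
    Tendsto (fun n => val (Real.log α) (pre x n) / n) atTop (𝓝 (LL (Real.log α))) := by
  have e : ∀ n : ℕ, nrm (aprod α x n) ^ (1 / (n : ℝ)) =
      Real.exp (val (Real.log α) (pre x n) / n) := by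
    intro n
    rw [aprod_eq, nrm_mprod_exp α h0, rpow_exp]
  rw [WeaklyExtremal, jsr_eq α h0]
  simp_rw [e]
  constructor
  · intro h
    have h1 := (Real.continuousAt_log (Real.exp_pos (LL (Real.log α))).ne').tendsto.comp h
    rw [Real.log_exp] at h1
    refine h1.congr (fun n => ?_)
    simp
  · intro h
    exact (Real.continuous_exp.tendsto _).comp h

lemma card_pre (x : ℕ → Bool) (n : ℕ) :
    ((Finset.range n).filter (fun i => x i = true)).card = (pre x n).count true := by
  induction n with
  | zero => simp [pre]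
  | succ n ih =>
    rw [Finset.range_add_one, Finset.filter_insert, pre, List.count_cons]
    cases h : x n
    · simp [ih]
    · simp [ih]

lemma oneRatio_eq (x : ℕ → Bool) (n : ℕ) : oneRatio x n = ((pre x n).count true : ℝ) / n := by
  rw [oneRatio, card_pre]

/-- Weakly extremal words exist for positive `α`. -/
lemma exists_we (α : ℝ) (h0 : 0 < α) : ∃ x, WeaklyExtremal α x := by
  obtain ⟨x, hx⟩ := exists_extremal (Real.log α)
  exact ⟨x, (we_iff α h0 x).mpr (tendsto_val _ hx)⟩

/-! ### The case `α = 0` -/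

lemma zero_lim : Tendsto (fun n : ℕ => ((n : ℝ) + 2) ^ (1 / (n : ℝ))) atTop (𝓝 1) := by
  have h := tendsto_rpow_div_mul_add 1 1 (-2) (by norm_num)
  have h2 : Tendsto (fun n : ℕ => (n : ℝ) + 2) atTop atTop :=
    tendsto_atTop_add_const_right _ _ tendsto_natCast_atTop_atTop
  refine (h.comp h2).congr (fun n => ?_)
  simp

lemma pre_false (n : ℕ) : ev A0 A1 (pre (fun _ => false) n) = !![1, (n : ℝ); 0, 1] := by
  induction n with
  | zero =>
    rw [pre, ev]
    ext i j
    fin_cases i <;> fin_cases j <;> simp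
  | succ n ih =>
    rw [pre, ev_F, ih]
    ext i j
    fin_cases i <;> fin_cases j <;> simp [A0]

lemma count_pre_false (n : ℕ) : (pre (fun _ => false) n).count true = 0 := by
  induction n with
  | zero => rfl
  | succ n ih => rw [pre]; simpa using ih

lemma nrm_zero (n : ℕ) : nrm (aprod 0 (fun _ => false) n) = (n : ℝ) + 2 := by
  rw [aprod_eq, nrm_mprod 0 le_rfl, count_pre_false, pre_false]
  simp [sm]
  ring

lemma sup_zero (n : ℕ) :
    (⨆ i : Fin n → Bool, nrm (mprod 0 (List.ofFn i)) ^ (1 / (n : ℝ))) =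
      ((n : ℝ) + 2) ^ (1 / (n : ℝ)) := by
  have hpre : ∀ w : List Bool, w.count true = 0 → w = pre (fun _ => false) w.length := by
    intro w
    induction w with
    | nil => intro _; rfl
    | cons b w ih =>
      intro h
      cases b
      · rw [List.length_cons, pre, ← ih (by simpa using h)]
      · simp at h
  apply le_antisymm
  · apply ciSup_le
    intro i
    rw [nrm_mprod 0 le_rfl]
    by_cases h : (List.ofFn i).count true = 0
    · have h1 := hpre _ h
      rw [List.length_ofFn] at h1
      rw [h, h1, pre_false]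
      apply le_of_eq
      congr 1
      simp [sm]
      ring
    · rw [zero_pow h, zero_mul]
      by_cases hn : n = 0
      · subst hn
        simp at h
      · rw [Real.zero_rpow (by positivity)]
        positivity
  · have h1 : ((n : ℝ) + 2) ^ (1 / (n : ℝ)) =
        nrm (mprod 0 (List.ofFn (fun _ : Fin n => false))) ^ (1 / (n : ℝ)) := by
      rw [← nrm_zero, aprod_eq]
      congr 3
      have h2 := hpre (List.ofFn (fun _ : Fin n => false)) (by
        rw [List.count_eq_zero]
        simp [List.mem_ofFn])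
      rw [List.length_ofFn] at h2
      exact h2.symm
    rw [h1]
    exact le_ciSup (f := fun i : Fin n → Bool => nrm (mprod 0 (List.ofFn i)) ^ (1 / (n : ℝ)))
      (Set.finite_range _).bddAbove _

lemma jsr_zero : jsr 0 = 1 := by
  have h : Tendsto (fun n : ℕ => ⨆ i : Fin n → Bool,
      nrm (mprod 0 (List.ofFn i)) ^ (1 / (n : ℝ))) atTop (𝓝 1) := by
    refine zero_lim.congr (fun n => ?_)
    rw [sup_zero]
  exact h.limsup_eq

lemma we_zero : WeaklyExtremal 0 (fun _ => false) := by
  rw [WeaklyExtremal, jsr_zero]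
  refine zero_lim.congr (fun n => ?_)
  rw [nrm_zero]

lemma ratio_zero {γ : ℝ} (h : IsOptRatio 0 γ) : γ = 0 := by
  have h1 := h.2 _ we_zero
  have h2 : Tendsto (oneRatio (fun _ => false)) atTop (𝓝 0) := by
    have : oneRatio (fun _ => false) = fun _ => 0 := by
      funext n
      rw [oneRatio_eq, count_pre_false]
      simp
    rw [this]
    exact tendsto_const_nhds
  exact tendsto_nhds_unique h1 h2

end Pool.Agent.OJR
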