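import Mathlib

/-! Words over `{false, true}`: a cyclic word with at least as many `false` as `true` is, up to a
rotation, a product of blocks `F` and `F T`, or it has the form `F F y T T z`. -/

namespace Pool.Agent.OJR

/-- Replace `false` by `F` and `true` by `F T`. -/
def subL : List Bool → List Bool
  | [] => []
  | false :: w => false :: subL w
  | true :: w => false :: true :: subL w

/-- Replace `false` by `T F` and `true` by `T`. -/
def subR : List Bool → List Bool
  | [] => []
  | false :: w => true :: false :: subR w
  | true :: w => true :: subR w

lemma cFT (w : List Bool) : w.count false + w.count true = w.length := by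
  induction w with
  | nil => rfl
  | cons b w ih => cases b <;> simp <;> omega

lemma subL_cF (w : List Bool) : (subL w).count false = w.count false + w.count true := by
  have h := cFT
  induction w with
  | nil => simp [subL]
  | cons b w ih =>
    have h1 := h w
    cases b <;> simp [subL, ih] <;> omega

lemma subL_cT (w : List Bool) : (subL w).count true = w.count true := by
  induction w with
  | nil => simp [subL]
  | cons b w ih => cases b <;> simp [subL, ih]

lemma subR_cT (w : List Bool) : (subR w).count true = w.count false + w.count true := by
  have h := cFT
  induction w with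
  | nil => simp [subR]
  | cons b w ih =>
    have h1 := h w
    cases b <;> simp [subR, ih] <;> omega

lemma subR_cF (w : List Bool) : (subR w).count false = w.count false := by
  induction w with
  | nil => simp [subR]
  | cons b w ih => cases b <;> simp [subR, ih]

lemma subR_eq (w : List Bool) : subR w = (subL (w.map not)).map not := by
  induction w with
  | nil => simp [subR, subL]
  | cons b w ih => cases b <;> simp [subR, subL, ih]

lemma cnt_noFF : ∀ z : List Bool, (∀ a b, z ≠ a ++ false :: false :: b) →
    z.count false ≤ z.count true + 1
  | [], _ => by simp
  | [false], _ => by simp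
  | [true], _ => by simp
  | true :: c :: z, h => by
    have := cnt_noFF (c :: z) (fun a b e => h (true :: a) b (by rw [e]; rfl))
    rw [List.count_cons, List.count_cons (b := true)]
    simp
    omega
  | false :: false :: z, h => absurd rfl (h [] z)
  | false :: true :: z, h => by
    have := cnt_noFF z (fun a b e => h (false :: true :: a) b (by rw [e]; rfl))
    simp
    omega

lemma subL_of (u : List Bool) (hu : ∀ z, ¬ u ~r (true :: true :: z)) :
    ∀ (t s : List Bool), s ++ t = u → (t = [] ∨ ∃ t', t = false :: t') → ∃ p, t = subL p
  | [], _, _, _ => ⟨[], rfl⟩
  | true :: t, _, _, h => by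
    rcases h with h | ⟨t', h⟩
    · exact absurd h (by simp)
    · exact absurd h (by simp)
  | [false], _, _, _ => ⟨[false], rfl⟩
  | false :: false :: t, s, e, _ => by
    obtain ⟨p, hp⟩ := subL_of u hu (false :: t) (s ++ [false]) (by simpa using e)
      (Or.inr ⟨t, rfl⟩)
    exact ⟨false :: p, by rw [hp]; rfl⟩
  | [false, true], _, _, _ => ⟨[true], rfl⟩
  | false :: true :: false :: t, s, e, _ => by
    obtain ⟨p, hp⟩ := subL_of u hu (false :: t) (s ++ [false, true]) (by simpa using e)
      (Or.inr ⟨t, rfl⟩)
    exact ⟨true :: p, by rw [hp]; rfl⟩
  | false :: true :: true :: t, s, e, _ => by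
    exfalso
    apply hu (t ++ s ++ [false])
    have : u = (s ++ [false]) ++ (true :: true :: t) := by simpa using e.symm
    rw [this]
    have h2 := List.isRotated_append (l := s ++ [false]) (l' := true :: true :: t)
    simpa using h2

/-- The cyclic word lemma. -/
lemma cyc (w : List Bool) (h : w.count true ≤ w.count false) :
    (∃ p, w ~r subL p) ∨ ∃ y z, w ~r (false :: false :: (y ++ true :: true :: z)) := by
  by_cases hT : ∃ z, w ~r (true :: true :: z)
  · right
    obtain ⟨z, hz⟩ := hT
    have c1 : z.count false = w.count false := by
      have := hz.perm.count_eq false
      simp at this; omega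
    have c2 : z.count true + 2 = w.count true := by
      have := hz.perm.count_eq true
      simp at this; omega
    have hz2 : ∃ a b, z = a ++ false :: false :: b := by
      by_contra hc
      push Not at hc
      have := cnt_noFF z hc
      omega
    obtain ⟨a, b, rfl⟩ := hz2
    refine ⟨b, a, hz.trans ?_⟩
    have h2 := List.isRotated_append (l := true :: true :: a) (l' := false :: false :: b)
    simpa using h2
  · left
    push Not at hT
    by_cases hw : w = []
    · exact ⟨[], by rw [hw]; exact List.IsRotated.refl _⟩
    · have hF : false ∈ w := by
        rw [← List.count_pos_iff]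
        by_contra hc
        have h0 : w.count false = 0 := by omega
        have h1 : w.count true = 0 := by omega
        have h3 : w.length = 0 := by
          have := cFT w
          omega
        exact hw (List.length_eq_zero_iff.mp h3)
      obtain ⟨a, b, rfl⟩ := List.append_of_mem hF
      have hr : (a ++ false :: b) ~r (false :: b ++ a) := List.isRotated_append
      obtain ⟨p, hp⟩ := subL_of (false :: b ++ a) (fun z hz => hT z (hr.trans hz))
        (false :: b ++ a) [] rfl (Or.inr ⟨b ++ a, rfl⟩)
      exact ⟨p, by rw [← hp]; exact hr⟩

lemma cycR (w : List Bool) (h : w.count false ≤ w.count true) :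
    (∃ p, w ~r subR p) ∨ ∃ y z, w ~r (false :: false :: (y ++ true :: true :: z)) := by
  have hmm : ∀ l : List Bool, (l.map not).map not = l := by
    intro l
    rw [List.map_map]
    have : (not ∘ not) = id := by funext b; cases b <;> rfl
    rw [this, List.map_id]
  have hc : ∀ l : List Bool, (l.map not).count true = l.count false := by
    intro l
    induction l with
    | nil => rfl
    | cons b l ih => cases b <;> simp [ih]
  have hc' : ∀ l : List Bool, (l.map not).count false = l.count true := by
    intro l
    induction l with
    | nil => rfl
    | cons b l ih => cases b <;> simp [ih]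
  have hmap : ∀ l l' : List Bool, l ~r l' → (l.map not) ~r (l'.map not) :=
    fun l l' hl => hl.map not
  rcases cyc (w.map not) (by rw [hc, hc']; exact h) with ⟨p, hp⟩ | ⟨y, z, hz⟩
  · left
    refine ⟨p.map not, ?_⟩
    have := hmap _ _ hp
    rw [hmm] at this
    rw [subR_eq, hmm]
    exact this
  · right
    have h1 := hmap _ _ hz
    rw [hmm] at h1
    refine ⟨z.map not, y.map not, h1.trans ?_⟩
    have h2 := List.isRotated_append (l := true :: true :: y.map not)
      (l' := false :: false :: z.map not)
    simpa using h2

end Pool.Agent.OJR
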