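import Pool.Agent.OJR.Def
import Pool.Agent.OJR.Lst

/-! Traces of products of two matrices with the reversal identity. -/

open Matrix

namespace Pool.Agent.OJR

/-- The product of a word in `X` (`false`) and `Y` (`true`). -/
noncomputable def ev (X Y : M2) : List Bool → M2
  | [] => 1
  | b :: w => (cond b Y X) * ev X Y w

lemma ev_nil (X Y : M2) : ev X Y [] = 1 := rfl
lemma ev_F (X Y : M2) (w : List Bool) : ev X Y (false :: w) = X * ev X Y w := rfl
lemma ev_T (X Y : M2) (w : List Bool) : ev X Y (true :: w) = Y * ev X Y w := rfl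

lemma ev_append (X Y : M2) (u v : List Bool) : ev X Y (u ++ v) = ev X Y u * ev X Y v := by
  induction u with
  | nil => simp [ev]
  | cons b u ih => simp [ev, ih, mul_assoc]

lemma ev_subL (X Y : M2) (w : List Bool) : ev X (X * Y) w = ev X Y (subL w) := by
  induction w with
  | nil => rfl
  | cons b w ih => cases b <;> simp [ev, subL, ih, mul_assoc]

lemma ev_subR (X Y : M2) (w : List Bool) : ev (Y * X) Y w = ev X Y (subR w) := by
  induction w with
  | nil => rfl
  | cons b w ih => cases b <;> simp [ev, subR, ih, mul_assoc]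

lemma tr_rot {X Y : M2} {u v : List Bool} (h : u ~r v) : (ev X Y u).trace = (ev X Y v).trace := by
  obtain ⟨n, rfl⟩ := h
  rw [List.rotate_eq_drop_append_take_mod, ev_append, Matrix.trace_mul_comm, ← ev_append,
    List.take_append_drop]

/-- The commutator. -/
noncomputable def cm (X Y : M2) : M2 := X * Y - Y * X

/-- The invariants of a pair on the Stern-Brocot path. -/
structure Good (X Y : M2) : Prop where
  dX : X.det = 1
  dY : Y.det = 1
  kk : cm X Y * cm X Y = 1
  kx : X * cm X Y * X = cm X Y
  ky : Y * cm X Y * Y = cm X Y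
  s1 : ∀ z, (X * cm X Y * Y * ev X Y z).trace < 0
  s2 : ∀ y, 0 < (X * ev X Y y * Y * cm X Y).trace

lemma cm_tr (X Y : M2) : (cm X Y).trace = 0 := by
  rw [cm, Matrix.trace_sub, Matrix.trace_mul_comm, sub_self]

/-- Conjugation by `K` inverts a letter. -/
lemma conj_adj {X K : M2} (hd : X.det = 1) (hk : K * K = 1) (hx : X * K * X = K) :
    K * X * K = X.adjugate := by
  have h1 : X.adjugate * X = 1 := by rw [Matrix.adjugate_mul, hd, one_smul]
  have h2 : K * X = X.adjugate * K := by
    calc K * X = (X.adjugate * X) * K * X := by rw [h1, one_mul]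
      _ = X.adjugate * (X * K * X) := by simp only [mul_assoc]
      _ = X.adjugate * K := by rw [hx]
  rw [h2, mul_assoc, hk, mul_one]

lemma conj_ev {X Y K : M2} (hdX : X.det = 1) (hdY : Y.det = 1) (hk : K * K = 1)
    (hx : X * K * X = K) (hy : Y * K * Y = K) (w : List Bool) :
    K * ev X Y w * K = (ev X Y w.reverse).adjugate := by
  induction w with
  | nil => simp [ev, hk]
  | cons b w ih =>
    rw [List.reverse_cons, ev_append, Matrix.adjugate_mul_distrib, ← ih]
    cases b
    · have h1 := conj_adj hdX hk hx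
      simp only [ev, cond_false, mul_one]
      rw [← h1]
      calc K * (X * ev X Y w) * K = K * X * (K * K) * ev X Y w * K := by
            rw [hk]; simp only [mul_assoc, one_mul]
        _ = K * X * K * (K * ev X Y w * K) := by simp only [mul_assoc]
    · have h1 := conj_adj hdY hk hy
      simp only [ev, cond_true, mul_one]
      rw [← h1]
      calc K * (Y * ev X Y w) * K = K * Y * (K * K) * ev X Y w * K := by
            rw [hk]; simp only [mul_assoc, one_mul]
        _ = K * Y * K * (K * ev X Y w * K) := by simp only [mul_assoc]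

lemma conj_id {K : M2} (h0 : K.trace = 0) (hk : K * K = 1) (M : M2) :
    M + K * M * K = M.trace • (1 : M2) + (M * K).trace • K := by
  have e0 : K 1 1 = - K 0 0 := by
    have := h0
    rw [Matrix.trace_fin_two] at this
    linarith
  have e1 : K 0 0 * K 0 0 + K 0 1 * K 1 0 = 1 := by
    have := congrFun (congrFun hk 0) 0
    simpa [Matrix.mul_apply, Fin.sum_univ_two] using this
  ext i j
  fin_cases i <;> fin_cases j <;>
    simp [Matrix.mul_apply, Fin.sum_univ_two, Matrix.trace_fin_two, e0]
  · linear_combination (M 1 1) * e1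
  · linear_combination (- M 0 1) * e1
  · linear_combination (- M 1 0) * e1
  · linear_combination (M 0 0) * e1

lemma tr_adj (M : M2) : M.adjugate.trace = M.trace := by
  rw [Matrix.adjugate_fin_two, Matrix.trace_fin_two, Matrix.trace_fin_two]
  simp
  ring

lemma adj_eq (M : M2) : M.adjugate = M.trace • (1 : M2) - M := by
  rw [Matrix.adjugate_fin_two, Matrix.trace_fin_two]
  ext i j
  fin_cases i <;> fin_cases j <;> simp

lemma ev_rev {X Y K : M2} (hdX : X.det = 1) (hdY : Y.det = 1) (hk : K * K = 1)
    (h0 : K.trace = 0) (hx : X * K * X = K) (hy : Y * K * Y = K) (w : List Bool) :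
    ev X Y w - ev X Y w.reverse = (ev X Y w * K).trace • K := by
  have h1 := conj_ev hdX hdY hk hx hy w
  have h2 : (ev X Y w.reverse).trace = (ev X Y w).trace := by
    rw [← tr_adj, ← h1, Matrix.trace_mul_comm, ← mul_assoc, hk, one_mul]
  have h3 := conj_id h0 hk (ev X Y w)
  rw [h1, adj_eq, h2] at h3
  have h4 : ev X Y w - ev X Y w.reverse = (ev X Y w + ((ev X Y w).trace • (1 : M2) -
      ev X Y w.reverse)) - (ev X Y w).trace • (1 : M2) := by abel
  rw [h4, h3]
  abel

lemma swap_lt {X Y : M2} (G : Good X Y) (y z : List Bool) :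
    (ev X Y (false :: false :: (y ++ true :: true :: z))).trace <
      (ev X Y (false :: ((true :: (y.reverse ++ [false])) ++ true :: z))).trace := by
  have h := ev_rev G.dX G.dY G.kk (cm_tr X Y) G.kx G.ky (false :: (y ++ [true]))
  have e1 : (false :: (y ++ [true])).reverse = true :: (y.reverse ++ [false]) := by simp
  rw [e1] at h
  have e2 : false :: false :: (y ++ true :: true :: z) =
      false :: ((false :: (y ++ [true])) ++ true :: z) := by simp
  rw [e2, ev_F, ev_F, ev_append, ev_append, ev_T]
  have h5 : ev X Y (false :: (y ++ [true])) = ev X Y (true :: (y.reverse ++ [false])) +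
      (ev X Y (false :: (y ++ [true])) * cm X Y).trace • cm X Y := by
    rw [← h]; abel
  have h6 : ev X Y (false :: (y ++ [true])) = X * ev X Y y * Y := by
    rw [ev_F, ev_append, ev_T, ev_nil, mul_one, mul_assoc]
  rw [h5, h6]
  have h7 : X * ((ev X Y (true :: (y.reverse ++ [false])) +
      (X * ev X Y y * Y * cm X Y).trace • cm X Y) * (Y * ev X Y z)) =
      X * (ev X Y (true :: (y.reverse ++ [false])) * (Y * ev X Y z)) +
      (X * ev X Y y * Y * cm X Y).trace • (X * cm X Y * Y * ev X Y z) := by
    rw [add_mul, mul_add, Matrix.smul_mul, Matrix.mul_smul]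
    simp only [mul_assoc]
  rw [h7, Matrix.trace_add, Matrix.trace_smul, smul_eq_mul]
  have := mul_neg_of_pos_of_neg (G.s2 y) (G.s1 z)
  linarith

lemma cm_L {X Y : M2} : cm X (X * Y) = X * cm X Y := by
  simp only [cm, mul_sub, mul_assoc]

lemma cm_R {X Y : M2} : cm (Y * X) Y = Y * cm X Y := by
  simp only [cm, mul_sub, mul_assoc]

lemma subL_head (w : List Bool) : subL w = [] ∨ ∃ t, subL w = false :: t := by
  cases w with
  | nil => left; rfl
  | cons b w => cases b <;> exact Or.inr ⟨_, rfl⟩

lemma subR_head (w : List Bool) : subR w = [] ∨ ∃ t, subR w = true :: t := by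
  cases w with
  | nil => left; rfl
  | cons b w => cases b <;> exact Or.inr ⟨_, rfl⟩

lemma Good.left {X Y : M2} (G : Good X Y) : Good X (X * Y) := by
  have hk := G.kk
  have hx := G.kx
  have hy := G.ky
  have hK : cm X (X * Y) = X * cm X Y := cm_L
  have s1 := G.s1
  have s2 := G.s2
  generalize hKe : cm X Y = K at *
  refine ⟨G.dX, by rw [Matrix.det_mul, G.dX, G.dY, one_mul], ?_, ?_, ?_, ?_, ?_⟩
  · rw [hK, show X * K * (X * K) = (X * K * X) * K by simp only [mul_assoc], hx, hk]
  · rw [hK, show X * (X * K) * X = X * (X * K * X) by simp only [mul_assoc], hx]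
  · rw [hK, show X * Y * (X * K) * (X * Y) = X * (Y * (X * K * X) * Y) by
      simp only [mul_assoc], hx, hy]
  · intro z
    rw [hK, ev_subL, show X * (X * K) * (X * Y) * ev X Y (subL z) =
      X * (X * K * X) * Y * ev X Y (subL z) by simp only [mul_assoc], hx]
    exact s1 _
  · intro y
    rw [hK, ev_subL, Matrix.trace_mul_comm, show X * K * (X * ev X Y (subL y) * (X * Y)) =
      (X * K * X) * (ev X Y (subL y) * (X * Y)) by simp only [mul_assoc], hx,
      Matrix.trace_mul_comm]
    rcases subL_head y with h | ⟨t, h⟩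
    · rw [h, ev_nil, one_mul]
      have := s2 []
      rwa [ev_nil, mul_one] at this
    · rw [h, ev_F]
      have := s2 (t ++ [false])
      rw [ev_append, ev_F, ev_nil, mul_one] at this
      rwa [show X * ev X Y t * (X * Y) * K = X * (ev X Y t * X) * Y * K by
        simp only [mul_assoc]]

lemma Good.right {X Y : M2} (G : Good X Y) : Good (Y * X) Y := by
  have hk := G.kk
  have hx := G.kx
  have hy := G.ky
  have hK : cm (Y * X) Y = Y * cm X Y := cm_R
  have s1 := G.s1
  have s2 := G.s2
  generalize hKe : cm X Y = K at *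
  refine ⟨by rw [Matrix.det_mul, G.dX, G.dY, one_mul], G.dY, ?_, ?_, ?_, ?_, ?_⟩
  · rw [hK, show Y * K * (Y * K) = (Y * K * Y) * K by simp only [mul_assoc], hy, hk]
  · rw [hK, show Y * X * (Y * K) * (Y * X) = Y * (X * (Y * K * Y) * X) by
      simp only [mul_assoc], hy, hx]
  · rw [hK, show Y * (Y * K) * Y = Y * (Y * K * Y) by simp only [mul_assoc], hy]
  · intro z
    rw [hK, ev_subR, show Y * X * (Y * K) * Y * ev X Y (subR z) =
      Y * (X * (Y * K * Y) * ev X Y (subR z)) by simp only [mul_assoc], hy,
      Matrix.trace_mul_comm]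
    rcases subR_head z with h | ⟨t, h⟩
    · rw [h, ev_nil, mul_one]
      have := s1 []
      rwa [ev_nil, mul_one] at this
    · rw [h, ev_T]
      have := s1 (t ++ [true])
      rw [ev_append, ev_T, ev_nil, mul_one] at this
      rwa [show X * K * (Y * ev X Y t) * Y = X * K * Y * (ev X Y t * Y) by
        simp only [mul_assoc]]
  · intro y
    rw [hK, ev_subR, show Y * X * ev X Y (subR y) * Y * (Y * K) =
      Y * (X * ev X Y (subR y) * Y * (Y * K)) by simp only [mul_assoc],
      Matrix.trace_mul_comm, show X * ev X Y (subR y) * Y * (Y * K) * Y =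
      X * ev X Y (subR y) * Y * (Y * K * Y) by simp only [mul_assoc], hy]
    exact s2 _

/-- A nonnegative matrix of determinant one. -/
structure NN (M : M2) : Prop where
  n00 : 0 ≤ M 0 0
  n01 : 0 ≤ M 0 1
  n10 : 0 ≤ M 1 0
  n11 : 0 ≤ M 1 1
  det : M 0 0 * M 1 1 - M 0 1 * M 1 0 = 1

lemma NN.mul {M N : M2} (h : NN M) (k : NN N) : NN (M * N) := by
  obtain ⟨a, b, c, d, e⟩ := h
  obtain ⟨a', b', c', d', e'⟩ := k
  refine ⟨?_, ?_, ?_, ?_, ?_⟩ <;> simp only [Matrix.mul_apply, Fin.sum_univ_two]
  · positivity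
  · positivity
  · positivity
  · positivity
  · linear_combination (N 0 0 * N 1 1 - N 0 1 * N 1 0) * e + e'

lemma NN.one : NN (1 : M2) := by
  refine ⟨?_, ?_, ?_, ?_, ?_⟩ <;> simp

lemma NN.A0 : NN A0 := by
  refine ⟨?_, ?_, ?_, ?_, ?_⟩ <;> simp [OJR.A0]

lemma NN.A1 : NN A1 := by
  refine ⟨?_, ?_, ?_, ?_, ?_⟩ <;> simp [OJR.A1]

lemma NN.ev {X Y : M2} (hX : NN X) (hY : NN Y) (w : List Bool) : NN (ev X Y w) := by
  induction w with
  | nil => exact NN.one
  | cons b w ih =>
    cases b
    · exact hX.mul ih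
    · exact hY.mul ih

lemma NN.pos {M : M2} (h : NN M) : 0 < M 0 0 ∧ 0 < M 1 1 := by
  obtain ⟨a, b, c, d, e⟩ := h
  have h1 : 1 ≤ M 0 0 * M 1 1 := by nlinarith [mul_nonneg b c]
  constructor
  · rcases a.lt_or_eq with h | h
    · exact h
    · rw [← h] at h1; linarith
  · rcases d.lt_or_eq with h | h
    · exact h
    · rw [← h] at h1; linarith

lemma Good.base : Good A0 A1 := by
  have hK : cm A0 A1 = !![1, 0; 0, -1] := by
    ext i j
    fin_cases i <;> fin_cases j <;> simp [cm, A0, A1] <;> norm_num
  refine ⟨by simp [A0, Matrix.det_fin_two], by simp [A1, Matrix.det_fin_two], ?_, ?_, ?_, ?_, ?_⟩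
  · rw [hK]
    ext i j
    fin_cases i <;> fin_cases j <;> simp
  · rw [hK]
    ext i j
    fin_cases i <;> fin_cases j <;> simp [A0]
  · rw [hK]
    ext i j
    fin_cases i <;> fin_cases j <;> simp [A1]
  · intro z
    have h := NN.ev NN.A0 NN.A1 z
    obtain ⟨h1, h2⟩ := h.pos
    have e : A0 * cm A0 A1 * A1 = !![0, -1; -1, -1] := by
      rw [hK]
      ext i j
      fin_cases i <;> fin_cases j <;> simp [A0, A1]
    rw [e, Matrix.trace_fin_two]
    simp [Matrix.mul_apply, Fin.sum_univ_two]
    have := h.n01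
    have := h.n10
    linarith
  · intro y
    have h := NN.ev NN.A0 NN.A1 y
    obtain ⟨h1, h2⟩ := h.pos
    have e : A1 * cm A0 A1 * A0 = !![1, 1; 1, 0] := by
      rw [hK]
      ext i j
      fin_cases i <;> fin_cases j <;> simp [A0, A1]
    rw [show A0 * ev A0 A1 y * A1 * cm A0 A1 = A0 * (ev A0 A1 y * A1 * cm A0 A1) by
      simp only [mul_assoc], Matrix.trace_mul_comm, show ev A0 A1 y * A1 * cm A0 A1 * A0 =
      ev A0 A1 y * (A1 * cm A0 A1 * A0) by simp only [mul_assoc], e, Matrix.trace_fin_two]
    simp [Matrix.mul_apply, Fin.sum_univ_two]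
    have := h.n01
    have := h.n10
    linarith

/-- Words with given numbers of letters have a trace-maximal element. -/
lemma exists_max (X Y : M2) (a b : ℕ) (w : List Bool) (h0 : w.count false = a)
    (h1 : w.count true = b) : ∃ m : List Bool, m.count false = a ∧ m.count true = b ∧
      ∀ u : List Bool, u.count false = a → u.count true = b →
        (ev X Y u).trace ≤ (ev X Y m).trace := by
  have hfin : {u : List Bool | u.count false = a ∧ u.count true = b}.Finite := by
    refine (List.finite_length_eq Bool (a + b)).subset ?_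
    rintro u ⟨h2, h3⟩
    have := cFT u
    simp only [Set.mem_setOf_eq]
    omega
  obtain ⟨m, ⟨hm1, hm2⟩, hm⟩ := Set.exists_max_image _ (fun u => (ev X Y u).trace) hfin
    ⟨w, h0, h1⟩
  exact ⟨m, hm1, hm2, fun u h2 h3 => hm u ⟨h2, h3⟩⟩

lemma step_aux {X Y : M2} (G : Good X Y) {m : List Bool}
    (hm : ∀ u : List Bool, u.count false = m.count false → u.count true = m.count true →
        (ev X Y u).trace ≤ (ev X Y m).trace) (y z : List Bool)
    (h : m ~r (false :: false :: (y ++ true :: true :: z))) : False := by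
  have h1 := swap_lt G y z
  rw [← tr_rot h] at h1
  have cF := h.perm.count_eq false
  have cT := h.perm.count_eq true
  have h2 := hm (false :: ((true :: (y.reverse ++ [false])) ++ true :: z))
    (by rw [cF]; simp; omega) (by rw [cT]; simp; omega)
  linarith

/-- The main step of the induction, left move. -/
lemma stepL {X Y : M2} (G : Good X Y) (a b : ℕ) (C : ℝ)
    (h : ∀ v : List Bool, v.count false = a → v.count true = b → (ev X (X * Y) v).trace ≤ C)
    (w : List Bool) (h0 : w.count false = a + b) (h1 : w.count true = b) :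
    (ev X Y w).trace ≤ C := by
  obtain ⟨m, hm1, hm2, hm⟩ := exists_max X Y (a + b) b w h0 h1
  refine (hm w h0 h1).trans ?_
  rcases cyc m (by omega) with ⟨p, hp⟩ | ⟨y, z, hz⟩
  · rw [tr_rot hp, ← ev_subL]
    have c1 := hp.perm.count_eq false
    have c2 := hp.perm.count_eq true
    rw [subL_cF] at c1
    rw [subL_cT] at c2
    exact h p (by omega) (by omega)
  · exact (step_aux G (fun u h2 h3 => hm u (h2.trans hm1) (h3.trans hm2)) y z hz).elim

/-- The main step of the induction, right move. -/
lemma stepR {X Y : M2} (G : Good X Y) (a b : ℕ) (C : ℝ)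
    (h : ∀ v : List Bool, v.count false = a → v.count true = b → (ev (Y * X) Y v).trace ≤ C)
    (w : List Bool) (h0 : w.count false = a) (h1 : w.count true = a + b) :
    (ev X Y w).trace ≤ C := by
  obtain ⟨m, hm1, hm2, hm⟩ := exists_max X Y a (a + b) w h0 h1
  refine (hm w h0 h1).trans ?_
  rcases cycR m (by omega) with ⟨p, hp⟩ | ⟨y, z, hz⟩
  · rw [tr_rot hp, ← ev_subR]
    have c1 := hp.perm.count_eq false
    have c2 := hp.perm.count_eq true
    rw [subR_cF] at c1
    rw [subR_cT] at c2
    exact h p (by omega) (by omega)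
  · exact (step_aux G (fun u h2 h3 => hm u (h2.trans hm1) (h3.trans hm2)) y z hz).elim

end Pool.Agent.OJR
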