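import Pool.Agent.OJR.Uni

/-! Existence: every irrational number in `(0, 1/2)` is the optimal ratio of some `α`. -/

open Matrix Filter Topology

namespace Pool.Agent.OJR

/-! ### The exponent is Lipschitz, symmetric, and has a supporting line of slope `γ` -/

lemma gg_lip (s t : ℝ) (n : ℕ) : gg s n ≤ gg t n + n * |s - t| := by
  obtain ⟨w, h1, h2⟩ := gg_att s n
  have h3 := val_le_gg t w
  rw [h1] at h3
  have h4 : (w.count true : ℝ) ≤ n := by
    rw [← h1]; exact_mod_cast List.count_le_length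
  have h5 : val s w = val t w + (w.count true : ℝ) * (s - t) := by
    simp only [val]; ring
  have h6 : (w.count true : ℝ) * (s - t) ≤ n * |s - t| := by
    calc (w.count true : ℝ) * (s - t) ≤ (w.count true : ℝ) * |s - t| :=
          mul_le_mul_of_nonneg_left (le_abs_self _) (Nat.cast_nonneg _)
      _ ≤ n * |s - t| := mul_le_mul_of_nonneg_right h4 (abs_nonneg _)
  linarith

lemma LL_lip (s t : ℝ) : LL s ≤ LL t + |s - t| := by
  refine le_of_tendsto_of_tendsto (LL_tendsto s) ((LL_tendsto t).add_const |s - t|) ?_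
  filter_upwards [eventually_gt_atTop 0] with n hn
  have hn0 : (0 : ℝ) < n := by exact_mod_cast hn
  have := gg_lip s t n
  rw [div_add' _ _ _ hn0.ne']
  apply div_le_div_of_nonneg_right _ hn0.le
  linarith

lemma LL_cont : Continuous LL := (LipschitzWith.of_le_add (fun x y => by
  rw [Real.dist_eq]; exact LL_lip x y)).continuous

lemma ev_not (w : List Bool) : (ev A0 A1 (w.map not)) 0 0 = (ev A0 A1 w) 1 1 ∧
    (ev A0 A1 (w.map not)) 0 1 = (ev A0 A1 w) 1 0 ∧
    (ev A0 A1 (w.map not)) 1 0 = (ev A0 A1 w) 0 1 ∧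
    (ev A0 A1 (w.map not)) 1 1 = (ev A0 A1 w) 0 0 := by
  induction w with
  | nil => simp [ev]
  | cons b w ih =>
    obtain ⟨h1, h2, h3, h4⟩ := ih
    rw [List.map_cons, ev, ev]
    generalize ev A0 A1 (w.map not) = M at *
    generalize ev A0 A1 w = N at *
    cases b <;> simp only [Bool.not_false, Bool.not_true, cond_true, cond_false] <;>
      simp [A0, A1, Matrix.mul_apply, Fin.sum_univ_two, h1, h2, h3, h4] <;>
      constructor <;> ring

lemma sm_not (w : List Bool) : sm (ev A0 A1 (w.map not)) = sm (ev A0 A1 w) := by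
  obtain ⟨h1, h2, h3, h4⟩ := ev_not w
  rw [sm, sm, h1, h2, h3, h4]
  ring

lemma count_map_not (w : List Bool) : (w.map not).count true + w.count true = w.length := by
  induction w with
  | nil => rfl
  | cons b w ih => cases b <;> simp <;> omega

lemma gg_neg (s : ℝ) (n : ℕ) : gg (-s) n ≤ gg s n - n * s := by
  obtain ⟨w, h1, h2⟩ := gg_att (-s) n
  have h3 := val_le_gg s (w.map not)
  rw [List.length_map, h1] at h3
  have h4 := count_map_not w
  rw [h1] at h4
  have h5 : (((w.map not).count true : ℕ) : ℝ) + w.count true = n := by exact_mod_cast h4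
  have h6 : val (-s) w = val s (w.map not) - n * s := by
    rw [val, val, sm_not, ← h5]; ring
  linarith

lemma LL_neg (s : ℝ) : LL (-s) ≤ LL s - s := by
  refine le_of_tendsto_of_tendsto (LL_tendsto (-s)) ((LL_tendsto s).sub_const s) ?_
  filter_upwards [eventually_gt_atTop 0] with n hn
  have hn0 : (0 : ℝ) < n := by exact_mod_cast hn
  have := gg_neg s n
  rw [div_sub' hn0.ne']
  exact div_le_div_of_nonneg_right this hn0.le

lemma exists_min {γ : ℝ} (h0 : 0 < γ) (h1 : γ < 1 / 2) :
    ∃ s : ℝ, s ≤ 0 ∧ ∀ t : ℝ, LL s + γ * (t - s) ≤ LL t := by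
  have hL0 := LL_nonneg 0
  set R := LL 0 / γ with hR
  have hR0 : 0 ≤ R := by positivity
  have hc : ContinuousOn (fun s => LL s - γ * s) (Set.Icc (-R) 0) :=
    (LL_cont.sub (continuous_const.mul continuous_id)).continuousOn
  obtain ⟨s, hs, hmin⟩ := isCompact_Icc.exists_isMinOn (Set.nonempty_Icc.mpr (by linarith)) hc
  have hm : ∀ t ∈ Set.Icc (-R) 0, LL s - γ * s ≤ LL t - γ * t := fun t ht => hmin ht
  have hneg : ∀ t : ℝ, t ≤ 0 → LL s - γ * s ≤ LL t - γ * t := by
    intro t ht
    by_cases h : -R ≤ t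
    · exact hm t ⟨h, ht⟩
    · push Not at h
      have h2 := hm 0 ⟨by linarith, le_rfl⟩
      have h3 : γ * R = LL 0 := by rw [hR]; field_simp
      have h4 := LL_nonneg t
      nlinarith
  refine ⟨s, hs.2, fun t => ?_⟩
  rcases le_total t 0 with ht | ht
  · have := hneg t ht
    linarith
  · have h2 := hneg (-t) (by linarith)
    have h3 := LL_neg t
    nlinarith

/-! ### Families of good words with small or large ratio -/

/-- Good words with few ones. -/
def Low (s δ : ℝ) : Prop := ∀ ε : ℝ, 0 < ε → ∃ u : List Bool,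
  (u.count true : ℝ) + 1 ≤ δ * ((u.length : ℝ) + 2) ∧
  (LL s - ε) * ((u.length : ℝ) + 2) ≤ val s u + s

/-- Good words with many ones. -/
def High (s δ : ℝ) : Prop := ∀ ε : ℝ, 0 < ε → ∃ u : List Bool,
  δ * ((u.length : ℝ) + 2) ≤ (u.count true : ℝ) + 1 ∧
  (LL s - ε) * ((u.length : ℝ) + 2) ≤ val s u + s

lemma low_of_min {s γ δ : ℝ} (hg : 0 ≤ γ) (hg1 : γ ≤ 1)
    (h : ∀ t : ℝ, LL s + γ * (t - s) ≤ LL t) (hδ : γ < δ) : Low s δ := by
  intro ε hε
  set τ := ε / 2 with hτ
  have hτ0 : 0 < τ := by positivity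
  obtain ⟨n1, hn1⟩ := exists_nat_gt (((2 * LL s - s) / τ + 1) / (δ - γ))
  obtain ⟨n2, hn2⟩ := exists_nat_gt ((2 * LL s - s) / τ)
  rw [div_lt_iff₀ (by linarith)] at hn1
  rw [div_lt_iff₀ hτ0] at hn2
  set n := max n1 n2 with hn
  have e1 : (n1 : ℝ) ≤ n := by exact_mod_cast le_max_left _ _
  have e2 : (n2 : ℝ) ≤ n := by exact_mod_cast le_max_right _ _
  obtain ⟨w, hw1, hw2⟩ := gg_att (s - τ) n
  have hL := LL_le (s - τ) n
  have hm := h (s - τ)
  have hg3 := val_le_gg s w
  rw [hw1] at hg3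
  have hg4 := gg_le s n
  have hv : val s w = val (s - τ) w + (w.count true : ℝ) * τ := by
    simp only [val]; ring
  have hn0 : (0 : ℝ) ≤ n := Nat.cast_nonneg n
  have hk0 : (0 : ℝ) ≤ (w.count true : ℝ) := Nat.cast_nonneg _
  have hmn := mul_le_mul_of_nonneg_left hm hn0
  refine ⟨w, ?_, ?_⟩
  · rw [hw1]
    have h5 : (w.count true : ℝ) * τ ≤ (γ * n + (2 * LL s - s) / τ) * τ := by
      have : (2 * LL s - s) / τ * τ = 2 * LL s - s := by field_simp
      nlinarith
    have h6 := le_of_mul_le_mul_right h5 hτ0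
    have h7 : (n1 : ℝ) * (δ - γ) ≤ n * (δ - γ) :=
      mul_le_mul_of_nonneg_right e1 (by linarith)
    nlinarith
  · rw [hw1]
    have h7 : (n2 : ℝ) * τ ≤ n * τ := mul_le_mul_of_nonneg_right e2 hτ0.le
    have h8 : n * (LL s - τ) ≤ val s w := by
      nlinarith [mul_nonneg hn0 hτ0.le, mul_nonneg hk0 hτ0.le,
        mul_nonneg (mul_nonneg hn0 hτ0.le) (sub_nonneg.mpr hg1)]
    nlinarith

lemma high_of_min {s γ δ : ℝ} (hg : 0 ≤ γ) (hg1 : γ < 1 / 2)
    (h : ∀ t : ℝ, LL s + γ * (t - s) ≤ LL t) (hδ : δ < γ) : High s δ := by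
  intro ε hε
  set τ := ε / 2 with hτ
  have hτ0 : 0 < τ := by positivity
  obtain ⟨n1, hn1⟩ := exists_nat_gt (((2 * LL s - s) / τ) / (γ - δ))
  obtain ⟨n2, hn2⟩ := exists_nat_gt ((2 * LL s - s) / τ)
  rw [div_lt_iff₀ (by linarith)] at hn1
  rw [div_lt_iff₀ hτ0] at hn2
  set n := max n1 n2 with hn
  have e1 : (n1 : ℝ) ≤ n := by exact_mod_cast le_max_left _ _
  have e2 : (n2 : ℝ) ≤ n := by exact_mod_cast le_max_right _ _
  obtain ⟨w, hw1, hw2⟩ := gg_att (s + τ) n
  have hL := LL_le (s + τ) n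
  have hm := h (s + τ)
  have hg3 := val_le_gg s w
  rw [hw1] at hg3
  have hg4 := gg_le s n
  have hv : val s w = val (s + τ) w - (w.count true : ℝ) * τ := by
    simp only [val]; ring
  have hn0 : (0 : ℝ) ≤ n := Nat.cast_nonneg n
  have hk0 : (0 : ℝ) ≤ (w.count true : ℝ) := Nat.cast_nonneg _
  have hkn : (w.count true : ℝ) ≤ n := by
    rw [← hw1]; exact_mod_cast List.count_le_length
  have hmn := mul_le_mul_of_nonneg_left hm hn0
  refine ⟨w, ?_, ?_⟩
  · rw [hw1]
    have h5 : (γ * n - (2 * LL s - s) / τ) * τ ≤ (w.count true : ℝ) * τ := by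
      have : (2 * LL s - s) / τ * τ = 2 * LL s - s := by field_simp
      nlinarith
    have h6 := le_of_mul_le_mul_right h5 hτ0
    have h7 : (n1 : ℝ) * (γ - δ) ≤ n * (γ - δ) :=
      mul_le_mul_of_nonneg_right e1 (by linarith)
    nlinarith
  · rw [hw1]
    have h7 : (n2 : ℝ) * τ ≤ n * τ := mul_le_mul_of_nonneg_right e2 hτ0.le
    have h8 : n * (LL s - τ) ≤ val s w := by
      nlinarith [mul_nonneg hn0 hτ0.le, mul_nonneg hk0 hτ0.le,
        mul_nonneg (mul_nonneg hn0 hτ0.le) hg, mul_le_mul_of_nonneg_right hkn hτ0.le]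
    nlinarith

lemma low_of_freq {s a δ : ℝ} {x : ℕ → Bool}
    (hx : Tendsto (fun n => val s (pre x n) / n) atTop (𝓝 (LL s)))
    (hf : ∃ᶠ n in atTop, ((pre x n).count true : ℝ) / n ≤ a) (ha : a < δ) (hd : 0 ≤ δ) :
    Low s δ := by
  intro ε hε
  have hv := hx.eventually (lt_mem_nhds (show LL s - ε / 2 < LL s by linarith))
  obtain ⟨n1, hn1⟩ := exists_nat_gt (1 / (δ - a))
  obtain ⟨n2, hn2⟩ := exists_nat_gt ((2 * LL s - s) / (ε / 2))
  rw [div_lt_iff₀ (by linarith)] at hn1
  rw [div_lt_iff₀ (by positivity)] at hn2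
  obtain ⟨n, hn⟩ := (hf.and_eventually (hv.and ((eventually_ge_atTop n1).and
    ((eventually_ge_atTop n2).and (eventually_gt_atTop 0))))).exists
  obtain ⟨b1, b2, b3, b4, b5⟩ := hn
  have hn0 : (0 : ℝ) < n := by exact_mod_cast b5
  have e1 : (n1 : ℝ) ≤ n := by exact_mod_cast b3
  have e2 : (n2 : ℝ) ≤ n := by exact_mod_cast b4
  rw [div_le_iff₀ hn0] at b1
  rw [lt_div_iff₀ hn0] at b2
  refine ⟨pre x n, ?_, ?_⟩
  · rw [pre_length]
    have := mul_le_mul_of_nonneg_right e1 (by linarith : 0 ≤ δ - a)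
    nlinarith
  · rw [pre_length]
    have := mul_le_mul_of_nonneg_right e2 (by linarith : 0 ≤ ε / 2)
    nlinarith

lemma high_of_freq {s a δ : ℝ} {x : ℕ → Bool}
    (hx : Tendsto (fun n => val s (pre x n) / n) atTop (𝓝 (LL s)))
    (hf : ∃ᶠ n in atTop, a ≤ ((pre x n).count true : ℝ) / n) (ha : δ < a) :
    High s δ := by
  intro ε hε
  have hv := hx.eventually (lt_mem_nhds (show LL s - ε / 2 < LL s by linarith))
  obtain ⟨n1, hn1⟩ := exists_nat_gt (2 * δ / (a - δ))
  obtain ⟨n2, hn2⟩ := exists_nat_gt ((2 * LL s - s) / (ε / 2))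
  rw [div_lt_iff₀ (by linarith)] at hn1
  rw [div_lt_iff₀ (by positivity)] at hn2
  obtain ⟨n, hn⟩ := (hf.and_eventually (hv.and ((eventually_ge_atTop n1).and
    ((eventually_ge_atTop n2).and (eventually_gt_atTop 0))))).exists
  obtain ⟨b1, b2, b3, b4, b5⟩ := hn
  have hn0 : (0 : ℝ) < n := by exact_mod_cast b5
  have e1 : (n1 : ℝ) ≤ n := by exact_mod_cast b3
  have e2 : (n2 : ℝ) ≤ n := by exact_mod_cast b4
  rw [le_div_iff₀ hn0] at b1
  rw [lt_div_iff₀ hn0] at b2
  refine ⟨pre x n, ?_, ?_⟩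
  · rw [pre_length]
    have := mul_le_mul_of_nonneg_right e1 (by linarith : 0 ≤ a - δ)
    nlinarith
  · rw [pre_length]
    have := mul_le_mul_of_nonneg_right e2 (by linarith : 0 ≤ ε / 2)
    nlinarith

/-! ### Combination of words -/

lemma val_conc_app (s : ℝ) (w r : List Bool) (m : ℕ) :
    m * (val s w + s) + val s r ≤ val s (conc (List.replicate m w) ++ r) := by
  induction m with
  | zero => simp [conc]
  | succ m ih =>
    rw [List.replicate_succ, conc_cons, List.append_assoc]
    have := val_conn s w (conc (List.replicate m w) ++ r)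
    push_cast
    linarith

lemma sm_le_tr (w : List Bool) : sm (ev A0 A1 (w ++ [false, true])) ≤
    5 * (ev A0 A1 (w ++ [false, true])).trace := by
  have h := NN.ev NN.A0 NN.A1 w
  have h1 := tr_conn h
  have h2 := sm_mul_le h (NN.A0.mul NN.A1)
  have h3 : sm (A0 * A1) = 5 := by
    simp [sm, A0, A1]; norm_num
  rw [ev_append, ev_FT]
  rw [h3] at h2
  linarith

lemma comb {s δ1 δ2 : ℝ} (lo : Low s δ1) (hi : High s δ2) {p q : ℕ} {r : ℝ} (hq : 1 ≤ q)
    (hcop : Nat.Coprime p q) (hr : 0 < r)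
    (ub : ∀ (c : ℕ) (w : List Bool), w.length = c * q → w.count true = c * p →
      (ev A0 A1 w).trace ≤ 2 * r ^ c)
    (h1 : δ1 * q < p) (h2 : (p : ℝ) < δ2 * q) : q * LL s ≤ p * s + Real.log r := by
  have hq0 : (0 : ℝ) < q := by exact_mod_cast hq
  suffices hS : ∀ ε : ℝ, 0 < ε → q * (LL s - ε) ≤ p * s + Real.log r by
    refine le_of_forall_pos_le_add (fun ε hε => ?_)
    have := hS (ε / q) (by positivity)
    have e : (q : ℝ) * (LL s - ε / q) = q * LL s - ε := by field_simp
    linarith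
  intro ε hε
  obtain ⟨u, u1, u2⟩ := lo ε hε
  obtain ⟨v, v1, v2⟩ := hi ε hε
  have hA : p * (v.length + 2) < q * (v.count true + 1) := by
    have : (p : ℝ) * (v.length + 2) < q * (v.count true + 1) := by
      have h3 : (p : ℝ) * (v.length + 2) < δ2 * q * (v.length + 2) :=
        mul_lt_mul_of_pos_right h2 (by positivity)
      have h4 := mul_le_mul_of_nonneg_left v1 hq0.le
      linarith
    exact_mod_cast this
  have hB : q * (u.count true + 1) < p * (u.length + 2) := by
    have : (q : ℝ) * (u.count true + 1) < p * (u.length + 2) := by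
      have h3 : δ1 * q * ((u.length : ℝ) + 2) < p * (u.length + 2) :=
        mul_lt_mul_of_pos_right h1 (by positivity)
      have h4 := mul_le_mul_of_nonneg_left u1 hq0.le
      linarith
    exact_mod_cast this
  obtain ⟨A, hA'⟩ := Nat.exists_eq_add_of_lt hA
  obtain ⟨B, hB'⟩ := Nat.exists_eq_add_of_lt hB
  set N := (A + 1) * (u.length + 2) + (B + 1) * (v.length + 2) with hN
  set K := (A + 1) * (u.count true + 1) + (B + 1) * (v.count true + 1) with hK
  have hqp : q * K = p * N := by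
    rw [hK, hN]
    zify at hA' hB' ⊢
    linear_combination ((B : ℤ) + 1) * hA' - ((A : ℤ) + 1) * hB'
  have hdvd : q ∣ N := by
    have : q ∣ p * N := ⟨K, hqp.symm⟩
    exact (Nat.Coprime.dvd_of_dvd_mul_left hcop.symm this)
  obtain ⟨c, hc⟩ := hdvd
  have hc2 : K = c * p := by
    have : q * K = q * (c * p) := by rw [hqp, hc]; ring
    exact Nat.eq_of_mul_eq_mul_left (by omega) this
  have hc3 : N = c * q := by rw [hc]; ring
  have hc1 : 1 ≤ c := by
    rcases Nat.eq_zero_or_pos c with h | h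
    · rw [h] at hc3
      have : 0 < N := by rw [hN]; positivity
      omega
    · exact h
  have key : ∀ t : ℕ, ((t : ℝ) + 1) * (c * (q * (LL s - ε) - (p * s + Real.log r))) ≤
      Real.log 10 := by
    intro t
    set a := (t + 1) * (A + 1) with ha
    set b := (t + 1) * B + t with hb
    have hb1 : b + 1 = (t + 1) * (B + 1) := by rw [hb]; ring
    set W := conc (List.replicate a u) ++ (conc (List.replicate b v) ++ v) ++ [false, true] with hW
    have hW2 : W = conc (List.replicate a u) ++ conc (List.replicate (b + 1) v) := by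
      rw [hW, List.replicate_succ', conc_append]
      simp [conc]
    have len : W.length = ((t + 1) * c) * q := by
      rw [hW2, List.length_append, conc_rep_len, conc_rep_len, hb1, ha, mul_assoc, mul_assoc,
        ← mul_add, ← hN, hc3]
      ring
    have cnt : W.count true = ((t + 1) * c) * p := by
      rw [hW2, List.count_append, conc_rep_count, conc_rep_count, hb1, ha, mul_assoc, mul_assoc,
        ← mul_add, ← hK, hc2]
      ring
    have hu := ub ((t + 1) * c) W len cnt
    have hsm := sm_le_tr (conc (List.replicate a u) ++ (conc (List.replicate b v) ++ v))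
    rw [← hW] at hsm
    have h5 : sm (ev A0 A1 W) ≤ 10 * r ^ ((t + 1) * c) := by linarith
    have h6 := Real.log_le_log (sm_pos W) h5
    rw [Real.log_mul (by norm_num) (by positivity), Real.log_pow] at h6
    have h7 : a * (val s u + s) + ((b + 1 : ℕ) : ℝ) * (val s v + s) ≤ val s W := by
      rw [hW2]
      have g1 := val_conc_app s u (conc (List.replicate (b + 1) v)) a
      have g2 := val_conc s v (b + 1)
      linarith
    have h8 : val s W = (((t + 1) * c * p : ℕ) : ℝ) * s + Real.log (sm (ev A0 A1 W)) := by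
      rw [val, cnt]
    have h9 : ((LL s - ε) * (N : ℝ)) * (t + 1) ≤
        a * (val s u + s) + ((b + 1 : ℕ) : ℝ) * (val s v + s) := by
      rw [hb1, ha, hN]
      push_cast
      have i1 := mul_le_mul_of_nonneg_left u2 (by positivity : (0 : ℝ) ≤ ((t : ℝ) + 1) * (A + 1))
      have i2 := mul_le_mul_of_nonneg_left v2 (by positivity : (0 : ℝ) ≤ ((t : ℝ) + 1) * (B + 1))
      linarith
    rw [hc3] at h9
    push_cast at h6 h7 h8 h9
    linarith
  by_contra hcon
  push Not at hcon
  have hcc : (1 : ℝ) ≤ c := by exact_mod_cast hc1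
  have hpos : 0 < (c : ℝ) * (q * (LL s - ε) - (p * s + Real.log r)) :=
    mul_pos (by linarith) (by linarith)
  obtain ⟨t, ht⟩ := exists_nat_gt (Real.log 10 / (c * (q * (LL s - ε) - (p * s + Real.log r))))
  rw [div_lt_iff₀ hpos] at ht
  have := key t
  linarith

lemma coprime_of {a b c d : ℕ} (h : a * b = c * d + 1) : Nat.Coprime c b := by
  have : (a : ℤ) * b = c * d + 1 := by exact_mod_cast h
  rw [← Nat.isCoprime_iff_coprime]
  exact ⟨-d, a, by linear_combination this⟩

lemma coprime_of' {a b c d : ℕ} (h : a * b = c * d + 1) : Nat.Coprime a d := by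
  have : (a : ℤ) * b = c * d + 1 := by exact_mod_cast h
  rw [← Nat.isCoprime_iff_coprime]
  exact ⟨b, -c, by linear_combination this⟩

/-- Good words cannot have both few and many ones. -/
lemma no_two {s δ1 δ2 δ : ℝ} (lo : Low s δ1) (hi : High s δ2) (hδ : Irrational δ) (h0 : 0 < δ)
    (h1 : δ < 1 / 2) (h2 : δ1 < δ) (h3 : δ < δ2) : False := by
  obtain ⟨p, q, p', q', rX, rY, E, D, i1, i2, -, i4⟩ := good_nodes hδ h0 h1
    (min (δ - δ1) (δ2 - δ)) (lt_min (by linarith) (by linarith))
  have far : (p' : ℝ) * q = p * q' + 1 := by exact_mod_cast D.far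
  have q0 : (0 : ℝ) < q := by exact_mod_cast D.q1
  have q0' : (0 : ℝ) < q' := by exact_mod_cast D.q2
  have j1 := lt_of_lt_of_le i4 (min_le_left _ _)
  have j2 := lt_of_lt_of_le i4 (min_le_right _ _)
  rw [div_lt_iff₀ (by positivity)] at j1 j2
  have a1 : δ1 * q < p := by
    have : δ1 * q * q' < p * q' := by nlinarith
    exact lt_of_mul_lt_mul_right this q0'.le
  have a2 : (p : ℝ) < δ2 * q := by nlinarith
  have a3 : (p' : ℝ) < δ2 * q' := by
    have : (p' : ℝ) * q < δ2 * q' * q := by nlinarith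
    exact lt_of_mul_lt_mul_right this q0.le
  have a4 : δ1 * q' < p' := by nlinarith
  have hX := D.rX1
  have hY := D.rY1
  have b1 := comb lo hi D.q1 (coprime_of D.far) (by linarith : (0 : ℝ) < rX)
    (fun c w k1 k2 => by simpa using D.ub1 c 0 w (by simpa using k1) (by simpa using k2)) a1 a2
  have b2 := comb lo hi D.q2 (coprime_of' D.far) (by linarith : (0 : ℝ) < rY)
    (fun c w k1 k2 => by simpa using D.ub2 0 c w (by simpa using k1) (by simpa using k2)) a4 a3
  obtain ⟨r, r1, r2⟩ := D.lbZ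
  have hXY : 0 < rX * rY := mul_pos (by linarith) (by linarith)
  have b3 := LL_lower s (by linarith : (0 : ℝ) < r) r2
  have b4 := Real.log_lt_log hXY r1
  rw [Real.log_mul (by linarith) (by linarith)] at b4
  push_cast at b3
  linarith

/-- Existence of `α`. -/
theorem exists_alpha {γ : ℝ} (_hγ : Irrational γ) (h0 : 0 < γ) (h1 : γ < 1 / 2) :
    ∃ α : ℝ, 0 ≤ α ∧ α ≤ 1 ∧ IsOptRatio α γ := by
  obtain ⟨s, hs, hmin⟩ := exists_min h0 h1
  refine ⟨Real.exp s, (Real.exp_pos s).le, Real.exp_le_one_iff.mpr hs,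
    ⟨⟨h0.le, by linarith⟩, fun x hx => ?_⟩⟩
  rw [we_iff _ (Real.exp_pos s), Real.log_exp] at hx
  have e : oneRatio x = fun n => ((pre x n).count true : ℝ) / n := by
    funext n; exact oneRatio_eq x n
  rw [e]
  refine tendsto_order.mpr ⟨fun a ha => ?_, fun a ha => ?_⟩
  · by_contra hc
    rw [not_eventually] at hc
    have hf : ∃ᶠ n in atTop, ((pre x n).count true : ℝ) / n ≤ a :=
      hc.mono (fun n hn => not_lt.mp hn)
    obtain ⟨δ, d1, d2, d3⟩ := exists_irrational_btwn (max_lt ha h0)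
    have d4 := (le_max_left a 0).trans_lt d2
    have d5 := (le_max_right a 0).trans_lt d2
    exact no_two (low_of_freq hx hf (show a < (max a 0 + δ) / 2 by linarith [le_max_left a 0])
      (by linarith [le_max_right a 0])) (high_of_min h0.le h1 hmin
      (show (δ + γ) / 2 < γ by linarith)) d1 d5 (by linarith) (by linarith) (by linarith)
  · by_contra hc
    rw [not_eventually] at hc
    have hf : ∃ᶠ n in atTop, a ≤ ((pre x n).count true : ℝ) / n :=
      hc.mono (fun n hn => not_lt.mp hn)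
    obtain ⟨δ, d1, d2, d3⟩ := exists_irrational_btwn (lt_min ha h1)
    have d4 := d3.trans_le (min_le_left a (1 / 2))
    have d5 := d3.trans_le (min_le_right a (1 / 2))
    exact no_two (low_of_min h0.le (by linarith) hmin (show γ < (γ + δ) / 2 by linarith))
      (high_of_freq hx hf (show (δ + a) / 2 < a by linarith)) d1 (by linarith) d5 (by linarith)
      (by linarith)

end Pool.Agent.OJR
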