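import Pool.Agent.OJR.Mat

/-! The pairs of matrices along the Stern-Brocot tree. -/

open Matrix

namespace Pool.Agent.OJR

/-- Pairs of the tree: matrices `X`, `Y` with 1-ratios `p/q < p'/q'`, and the central factor. -/
inductive Node : M2 → M2 → M2 → ℕ → ℕ → ℕ → ℕ → Prop
  | root : Node A0 A1 1 0 1 1 1
  | left {X Y P : M2} {p q p' q' : ℕ} : Node X Y P p q p' q' →
      Node X (X * Y) (X * P) p q (p + p') (q + q')
  | right {X Y P : M2} {p q p' q' : ℕ} : Node X Y P p q p' q' →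
      Node (Y * X) Y (Y * P) (p + p') (q + q') p' q'

variable {X Y P : M2} {p q p' q' : ℕ}

lemma Node.far (h : Node X Y P p q p' q') : p' * q = p * q' + 1 ∧ 1 ≤ q ∧ 1 ≤ q' := by
  induction h with
  | root => simp
  | left _ ih => obtain ⟨h1, h2, h3⟩ := ih; refine ⟨?_, h2, by omega⟩; linear_combination h1
  | right _ ih => obtain ⟨h1, h2, h3⟩ := ih; refine ⟨?_, by omega, h3⟩; linear_combination h1

lemma Node.good (h : Node X Y P p q p' q') : Good X Y := by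
  induction h with
  | root => exact Good.base
  | left _ ih => exact ih.left
  | right _ ih => exact ih.right

lemma Node.words (h : Node X Y P p q p' q') :
    (∃ w : List Bool, ev A0 A1 w = X ∧ w.length = q ∧ w.count true = p) ∧
    (∃ w : List Bool, ev A0 A1 w = Y ∧ w.length = q' ∧ w.count true = p') := by
  induction h with
  | root => exact ⟨⟨[false], by simp [ev], rfl, rfl⟩, ⟨[true], by simp [ev], rfl, rfl⟩⟩
  | left _ ih =>
    obtain ⟨⟨w, h1, h2, h3⟩, ⟨v, h4, h5, h6⟩⟩ := ih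
    exact ⟨⟨w, h1, h2, h3⟩, ⟨w ++ v, by rw [ev_append, h1, h4],
      by rw [List.length_append, h2, h5], by rw [List.count_append, h3, h6]⟩⟩
  | right _ ih =>
    obtain ⟨⟨w, h1, h2, h3⟩, ⟨v, h4, h5, h6⟩⟩ := ih
    exact ⟨⟨v ++ w, by rw [ev_append, h1, h4],
      by rw [List.length_append, h2, h5, add_comm],
      by rw [List.count_append, h3, h6, add_comm]⟩, ⟨v, h4, h5, h6⟩⟩

lemma Node.nn (h : Node X Y P p q p' q') : NN X ∧ NN Y ∧ NN P := by
  induction h with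
  | root => exact ⟨NN.A0, NN.A1, NN.one⟩
  | left _ ih => exact ⟨ih.1, ih.1.mul ih.2.1, ih.1.mul ih.2.2⟩
  | right _ ih => exact ⟨ih.2.1.mul ih.1, ih.2.1, ih.2.1.mul ih.2.2⟩

/-- The comparison of traces: every word in `A_0`, `A_1` whose 1-ratio lies in `[p/q, p'/q']` has
trace at most the largest trace of the words in `X`, `Y` with the same numbers of letters. -/
lemma Node.claimA (h : Node X Y P p q p' q') : ∀ (a b : ℕ) (C : ℝ),
    (∀ v : List Bool, v.count false = a → v.count true = b → (ev X Y v).trace ≤ C) →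
    ∀ w : List Bool, w.length = a * q + b * q' → w.count true = a * p + b * p' →
      (ev A0 A1 w).trace ≤ C := by
  induction h with
  | root =>
    intro a b C hC w h1 h2
    have := cFT w
    exact hC w (by omega) (by omega)
  | @left X Y P p q p' q' hn ih =>
    intro a b C hC w h1 h2
    refine ih (a + b) b C (stepL hn.good a b C hC) w ?_ ?_
    · rw [h1]; ring
    · rw [h2]; ring
  | @right X Y P p q p' q' hn ih =>
    intro a b C hC w h1 h2
    refine ih a (a + b) C (stepR hn.good a b C hC) w ?_ ?_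
    · rw [h1]; ring
    · rw [h2]; ring

lemma Node.cen (h : Node X Y P p q p' q') :
    X * Y = P * (A0 * A1) ∧ Y * X = P * (A1 * A0) ∧
    (∃ (n : ℕ) (Z : M2), NN Z ∧ X ^ n = P * Z) ∧ (∃ (n : ℕ) (Z : M2), NN Z ∧ Y ^ n = P * Z) := by
  induction h with
  | root => exact ⟨by simp, by simp, ⟨0, 1, NN.one, by simp⟩, ⟨0, 1, NN.one, by simp⟩⟩
  | @left X Y P p q p' q' hn ih =>
    obtain ⟨h1, h2, ⟨n, Z, hZ, h3⟩, h4⟩ := ih
    refine ⟨by rw [h1, ← mul_assoc X], by rw [mul_assoc X Y X, h2, ← mul_assoc X],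
      ⟨n + 1, Z, hZ, by rw [pow_succ', h3, mul_assoc]⟩,
      ⟨2, A1 * A0 * Y, (NN.A1.mul NN.A0).mul hn.nn.2.1, ?_⟩⟩
    rw [pow_two, show X * Y * (X * Y) = X * (Y * X) * Y by simp only [mul_assoc], h2]
    simp only [mul_assoc]
  | @right X Y P p q p' q' hn ih =>
    obtain ⟨h1, h2, h4, ⟨n, Z, hZ, h3⟩⟩ := ih
    refine ⟨by rw [mul_assoc Y X Y, h1, ← mul_assoc Y], by rw [h2, ← mul_assoc Y],
      ⟨2, A0 * A1 * X, (NN.A0.mul NN.A1).mul hn.nn.1, ?_⟩,
      ⟨n + 1, Z, hZ, by rw [pow_succ', h3, mul_assoc]⟩⟩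
    rw [pow_two, show Y * X * (Y * X) = Y * (X * Y) * X by simp only [mul_assoc], h1]
    simp only [mul_assoc]

/-! ### Eigenvectors -/

/-- `u` is a positive eigenvector of `M` for the eigenvalue `r`. -/
structure Eig (M : M2) (r : ℝ) (u : Fin 2 → ℝ) : Prop where
  u0 : 0 < u 0
  u1 : 0 < u 1
  e : M *ᵥ u = r • u

lemma eig {M : M2} (h : NN M) (h01 : 0 < M 0 1) (h10 : 0 < M 1 0) :
    ∃ (r : ℝ) (u : Fin 2 → ℝ), 1 < r ∧ r + 1 / r = M.trace ∧ Eig M r u := by
  have hd := h.det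
  obtain ⟨p0, p1⟩ := h.pos
  have ht : 4 < (M 0 0 + M 1 1) ^ 2 := by nlinarith [sq_nonneg (M 0 0 - M 1 1), mul_pos h01 h10]
  set t := M 0 0 + M 1 1 with htd
  have ht0 : 0 < t := by positivity
  have ht2 : 2 < t := by nlinarith
  set r := (t + Real.sqrt (t ^ 2 - 4)) / 2 with hr
  have hs : Real.sqrt (t ^ 2 - 4) ^ 2 = t ^ 2 - 4 := Real.sq_sqrt (by linarith)
  have hs0 : 0 < Real.sqrt (t ^ 2 - 4) := Real.sqrt_pos.mpr (by linarith)
  have hr1 : 1 < r := by rw [hr]; linarith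
  have hq : r * r - t * r + 1 = 0 := by
    rw [hr]; ring_nf; ring_nf at hs; rw [hs]; ring
  have hr0 : 0 < r := by linarith
  have hrM : M 0 0 < r := by
    have h3 : (r - M 0 0) * (r - M 1 1) = M 0 1 * M 1 0 := by
      rw [htd] at hq
      linear_combination hq + hd
    have h4 : t < 2 * r := by rw [hr]; linarith
    have h5 : 0 < (r - M 0 0) * (r - M 1 1) := by rw [h3]; positivity
    by_contra hc
    push Not at hc
    have h6 : 0 < r - M 1 1 := by rw [htd] at h4; linarith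
    nlinarith
  refine ⟨r, ![M 0 1, r - M 0 0], hr1, ?_, ⟨by simpa using h01, by simpa using hrM, ?_⟩⟩
  · rw [Matrix.trace_fin_two, ← htd]
    field_simp
    linear_combination hq
  · ext i
    fin_cases i
    · simp [Matrix.mulVec, dotProduct, Fin.sum_univ_two]
      ring
    · simp [Matrix.mulVec, dotProduct, Fin.sum_univ_two]
      rw [htd] at hq
      linear_combination (-1 : ℝ) * hq - hd

lemma Eig.pow {M : M2} {r : ℝ} {u : Fin 2 → ℝ} (h : Eig M r u) (n : ℕ) : Eig (M ^ n) (r ^ n) u := by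
  refine ⟨h.u0, h.u1, ?_⟩
  induction n with
  | zero => simp
  | succ n ih =>
    rw [pow_succ, ← Matrix.mulVec_mulVec, h.e, Matrix.mulVec_smul, ih, smul_smul, pow_succ,
      mul_comm]

/-- Entrywise inequality with a multiple of a vector. -/
def SubE (M : M2) (c : ℝ) (u : Fin 2 → ℝ) : Prop :=
  M 0 0 * u 0 + M 0 1 * u 1 ≤ c * u 0 ∧ M 1 0 * u 0 + M 1 1 * u 1 ≤ c * u 1

lemma Eig.eqs {M : M2} {r : ℝ} {u : Fin 2 → ℝ} (h : Eig M r u) :
    M 0 0 * u 0 + M 0 1 * u 1 = r * u 0 ∧ M 1 0 * u 0 + M 1 1 * u 1 = r * u 1 := by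
  have h0 := congrFun h.e 0
  have h1 := congrFun h.e 1
  simp [Matrix.mulVec, dotProduct, Fin.sum_univ_two] at h0 h1
  exact ⟨h0, h1⟩

lemma Eig.sub {M : M2} {r : ℝ} {u : Fin 2 → ℝ} (h : Eig M r u) : SubE M r u :=
  ⟨h.eqs.1.le, h.eqs.2.le⟩

lemma SubE.mul {M N : M2} {c d : ℝ} {u : Fin 2 → ℝ} (hM : NN M) (h : SubE M c u)
    (k : SubE N d u) (hd : 0 ≤ d) : SubE (M * N) (c * d) u := by
  obtain ⟨h0, h1⟩ := h
  obtain ⟨k0, k1⟩ := k
  constructor
  · simp only [Matrix.mul_apply, Fin.sum_univ_two]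
    nlinarith [mul_le_mul_of_nonneg_left k0 hM.n00, mul_le_mul_of_nonneg_left k1 hM.n01,
      mul_le_mul_of_nonneg_left h0 hd]
  · simp only [Matrix.mul_apply, Fin.sum_univ_two]
    nlinarith [mul_le_mul_of_nonneg_left k0 hM.n10, mul_le_mul_of_nonneg_left k1 hM.n11,
      mul_le_mul_of_nonneg_left h1 hd]

lemma SubE.ev {X Y : M2} {c d : ℝ} {u : Fin 2 → ℝ} (hX : NN X) (hY : NN Y) (hc : 0 ≤ c)
    (hd : 0 ≤ d) (h : SubE X c u) (k : SubE Y d u) (w : List Bool) :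
    SubE (ev X Y w) (c ^ (w.count false) * d ^ (w.count true)) u := by
  induction w with
  | nil => simp [OJR.ev, SubE]
  | cons b w ih =>
    cases b
    · have := SubE.mul hX h ih (by positivity)
      simpa [OJR.ev, pow_succ, mul_comm, mul_left_comm, mul_assoc] using this
    · have := SubE.mul hY k ih (by positivity)
      simpa [OJR.ev, pow_succ, mul_comm, mul_left_comm, mul_assoc] using this

lemma SubE.tr {M : M2} {c : ℝ} {u : Fin 2 → ℝ} (hM : NN M) (h0 : 0 < u 0) (h1 : 0 < u 1)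
    (h : SubE M c u) : M.trace ≤ 2 * c := by
  obtain ⟨k0, k1⟩ := h
  rw [Matrix.trace_fin_two]
  have a : M 0 0 ≤ c := by
    have : M 0 0 * u 0 ≤ c * u 0 := by nlinarith [mul_nonneg hM.n01 h1.le]
    exact le_of_mul_le_mul_right this h0
  have b : M 1 1 ≤ c := by
    have : M 1 1 * u 1 ≤ c * u 1 := by nlinarith [mul_nonneg hM.n10 h0.le]
    exact le_of_mul_le_mul_right this h1
  linarith

/-- The sum of the entries. -/
def sm (M : M2) : ℝ := M 0 0 + M 0 1 + M 1 0 + M 1 1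

lemma Eig.le_sm {M : M2} {r : ℝ} {u : Fin 2 → ℝ} (hM : NN M) (h : Eig M r u) : r ≤ sm M := by
  obtain ⟨e0, e1⟩ := h.eqs
  have h0 := h.u0
  have h1 := h.u1
  have : r * (u 0 + u 1) ≤ sm M * (u 0 + u 1) := by
    have e : r * (u 0 + u 1) = M 0 0 * u 0 + M 0 1 * u 1 + (M 1 0 * u 0 + M 1 1 * u 1) := by
      rw [e0, e1]; ring
    rw [e, sm]
    nlinarith [mul_nonneg hM.n00 h1.le, mul_nonneg hM.n01 h0.le, mul_nonneg hM.n10 h1.le,
      mul_nonneg hM.n11 h0.le]
  exact le_of_mul_le_mul_right this (by linarith)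

/-! ### Comparison of vectors in the cone of `P` -/

lemma in_cone {M P : M2} {r : ℝ} {u : Fin 2 → ℝ} (h : Eig M r u) (hr : 0 < r) {n : ℕ} {Z : M2}
    (hZ : NN Z) (e : M ^ n = P * Z) : ∃ t : Fin 2 → ℝ, 0 ≤ t 0 ∧ 0 ≤ t 1 ∧
      u 0 = P 0 0 * t 0 + P 0 1 * t 1 ∧ u 1 = P 1 0 * t 0 + P 1 1 * t 1 := by
  have h1 := (h.pow n).eqs
  have h0 := h.u0
  have h0' := h.u1
  rw [e] at h1
  simp only [Matrix.mul_apply, Fin.sum_univ_two] at h1
  obtain ⟨e0, e1⟩ := h1
  have hrn : 0 < r ^ n := by positivity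
  refine ⟨![(Z 0 0 * u 0 + Z 0 1 * u 1) / r ^ n, (Z 1 0 * u 0 + Z 1 1 * u 1) / r ^ n], ?_, ?_,
    ?_, ?_⟩
  · have := hZ.n00; have := hZ.n01
    simp; positivity
  · have := hZ.n10; have := hZ.n11
    simp; positivity
  · simp
    field_simp
    linear_combination (-1 : ℝ) * e0
  · simp
    field_simp
    linear_combination (-1 : ℝ) * e1

/-- Two positive vectors in the cone spanned by the columns of `P` are close. -/
lemma cone_cmp {P : M2} (hP : NN P) {u v : Fin 2 → ℝ}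
    (hu : ∃ t : Fin 2 → ℝ, 0 ≤ t 0 ∧ 0 ≤ t 1 ∧
      u 0 = P 0 0 * t 0 + P 0 1 * t 1 ∧ u 1 = P 1 0 * t 0 + P 1 1 * t 1)
    (hv : ∃ t : Fin 2 → ℝ, 0 ≤ t 0 ∧ 0 ≤ t 1 ∧
      v 0 = P 0 0 * t 0 + P 0 1 * t 1 ∧ v 1 = P 1 0 * t 0 + P 1 1 * t 1) :
    u 1 * v 0 * (P 0 1 * P 1 0) ≤ u 0 * v 1 * (P 0 0 * P 1 1) := by
  obtain ⟨t, t0, t1, a0, a1⟩ := hu
  obtain ⟨s, s0, s1, b0, b1⟩ := hv
  have hd := hP.det
  have h00 := hP.n00
  have h01 := hP.n01
  have h10 := hP.n10
  have h11 := hP.n11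
  rw [a0, a1, b0, b1]
  generalize P 0 0 = a at *
  generalize P 0 1 = b at *
  generalize P 1 0 = c at *
  generalize P 1 1 = d at *
  generalize t 0 = x at *
  generalize t 1 = y at *
  generalize s 0 = z at *
  generalize s 1 = w at *
  have e : (a * x + b * y) * (c * z + d * w) * (a * d) - (c * x + d * y) * (a * z + b * w) * (b * c)
      = (a * d - b * c) * (a * c * (x * z) + (a * d + b * c) * (x * w) + b * d * (y * w)) := by
    ring
  rw [hd, one_mul] at e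
  have : 0 ≤ a * c * (x * z) + (a * d + b * c) * (x * w) + b * d * (y * w) := by positivity
  linarith

/-- The bound `Y u ≤ E r_Y u` for the eigenvector `u` of `X`. -/
lemma sub_cross {Y : M2} (hY : NN Y) {r E : ℝ} {u v : Fin 2 → ℝ} (hv : Eig Y r v) (hE : 1 ≤ E)
    (u0 : 0 < u 0) (u1 : 0 < u 1)
    (h1 : u 1 * v 0 ≤ E * (u 0 * v 1)) (h2 : u 0 * v 1 ≤ E * (u 1 * v 0)) :
    SubE Y (E * r) u := by
  obtain ⟨e0, e1⟩ := hv.eqs
  have v0 := hv.u0
  have v1 := hv.u1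
  constructor
  · have : (Y 0 0 * u 0 + Y 0 1 * u 1) * v 0 ≤ (E * r * u 0) * v 0 := by
      have e : (E * r * u 0) * v 0 = E * u 0 * (Y 0 0 * v 0 + Y 0 1 * v 1) := by
        rw [e0]; ring
      rw [e]
      have a1 := mul_le_mul_of_nonneg_left h1 hY.n01
      have a2 : 0 ≤ Y 0 0 * (u 0 * v 0) := mul_nonneg hY.n00 (by positivity)
      nlinarith [mul_nonneg (sub_nonneg.mpr hE) a2]
    exact le_of_mul_le_mul_right this v0
  · have : (Y 1 0 * u 0 + Y 1 1 * u 1) * v 1 ≤ (E * r * u 1) * v 1 := by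
      have e : (E * r * u 1) * v 1 = E * u 1 * (Y 1 0 * v 0 + Y 1 1 * v 1) := by
        rw [e1]; ring
      rw [e]
      have a1 := mul_le_mul_of_nonneg_left h2 hY.n10
      have a2 : 0 ≤ Y 1 1 * (u 1 * v 1) := mul_nonneg hY.n11 (by positivity)
      nlinarith [mul_nonneg (sub_nonneg.mpr hE) a2]
    exact le_of_mul_le_mul_right this v1

end Pool.Agent.OJR
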