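import Pool.Agent.OJR.Lnk

/-! Uniqueness: an irrational ratio determines `α`. -/

open Matrix Filter Topology

namespace Pool.Agent.OJR

/-- Letter counts with respect to a Farey pair. -/
lemma farey_counts {p q p' q' N K : ℕ} (far : p' * q = p * q' + 1) (h1 : p * N ≤ q * K)
    (h2 : q' * K ≤ p' * N) : ∃ a b : ℕ, N = a * q + b * q' ∧ K = a * p + b * p' ∧
      (a : ℝ) = p' * N - q' * K ∧ (b : ℝ) = q * K - p * N := by
  obtain ⟨a, ha⟩ := Nat.exists_eq_add_of_le h2
  obtain ⟨b, hb⟩ := Nat.exists_eq_add_of_le h1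
  have ha' : (p' : ℤ) * N = q' * K + a := by exact_mod_cast ha
  have hb' : (q : ℤ) * K = p * N + b := by exact_mod_cast hb
  have far' : (p' : ℤ) * q = p * q' + 1 := by exact_mod_cast far
  refine ⟨a, b, ?_, ?_, ?_, ?_⟩
  · zify
    linear_combination (-(N : ℤ)) * far' + (q : ℤ) * ha' + (q' : ℤ) * hb'
  · zify
    linear_combination (-(K : ℤ)) * far' + (p : ℤ) * ha' + (p' : ℤ) * hb'
  · have : (p' : ℝ) * N = q' * K + a := by exact_mod_cast ha
    linarith
  · have : (q : ℝ) * K = p * N + b := by exact_mod_cast hb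
    linarith

lemma lim_count {x : ℕ → Bool} {γ : ℝ}
    (hx : Tendsto (fun n => ((pre x n).count true : ℝ) / n) atTop (𝓝 γ)) (c d e : ℝ) :
    Tendsto (fun n : ℕ => (c * (pre x n).count true + d * n + e) / (n : ℝ)) atTop
      (𝓝 (c * γ + d)) := by
  have h1 : Tendsto (fun n : ℕ => c * (((pre x n).count true : ℝ) / n) + d + e / (n : ℝ)) atTop
      (𝓝 (c * γ + d)) := by
    have := ((hx.const_mul c).add_const d).add (tendsto_const_div_atTop_nhds_zero_nat e)
    simpa using this
  refine h1.congr' ?_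
  filter_upwards [eventually_gt_atTop 0] with n hn
  have h2 : (0 : ℝ) < n := by exact_mod_cast hn
  field_simp

lemma ev_tr_val (s : ℝ) (w : List Bool) : val s w ≤ (w.count true : ℝ) * s +
    Real.log ((ev A0 A1 (w ++ [false, true])).trace) := by
  rw [val]
  have h := tr_conn (NN.ev NN.A0 NN.A1 w)
  rw [← ev_FT, ← ev_append] at h
  have := Real.log_le_log (sm_pos w) h
  linarith

lemma tr_pos (w : List Bool) : 0 < (ev A0 A1 w).trace := by
  have := (NN.ev NN.A0 NN.A1 w).pos
  rw [Matrix.trace_fin_two]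
  linarith [this.1, this.2]

/-- The upper bound for the exponent from a node. -/
lemma LL_upper {p q p' q' : ℕ} {rX rY E γ s : ℝ} (hE : 0 < rX) (hE' : 0 < rY)
    (far : p' * q = p * q' + 1)
    (ub : ∀ (a b : ℕ) (w : List Bool), w.length = a * q + b * q' →
      w.count true = a * p + b * p' → (ev A0 A1 w).trace ≤ 2 * (rX ^ a * rY ^ b))
    (h1 : (p : ℝ) < γ * q) (h2 : γ * q' < p') {x : ℕ → Bool}
    (hx : Tendsto (fun n => ((pre x n).count true : ℝ) / n) atTop (𝓝 γ))
    (hL : Tendsto (fun n => val s (pre x n) / n) atTop (𝓝 (LL s))) :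
    LL s ≤ γ * s + (p' - q' * γ) * Real.log rX + (q * γ - p) * Real.log rY := by
  -- the limits of the letter counts
  have ta := lim_count hx (-(q' : ℝ)) p' (2 * p' - q')
  have tb := lim_count hx (q : ℝ) (-(p : ℝ)) (q - 2 * p)
  have tk := lim_count hx 1 0 0
  have ta0 : 0 < -(q' : ℝ) * γ + p' := by linarith
  have tb0 : 0 < (q : ℝ) * γ + -(p : ℝ) := by linarith
  have ea := ta.eventually (lt_mem_nhds ta0)
  have eb := tb.eventually (lt_mem_nhds tb0)
  have tot := ((tk.mul_const s).add (ta.mul_const (Real.log rX))).add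
    (tb.mul_const (Real.log rY))
  have tot2 := tot.add (tendsto_const_div_atTop_nhds_zero_nat (Real.log 2))
  have e : γ * s + (p' - q' * γ) * Real.log rX + (q * γ - p) * Real.log rY =
      (1 * γ + 0) * s + (-(q' : ℝ) * γ + p') * Real.log rX +
        ((q : ℝ) * γ + -(p : ℝ)) * Real.log rY + 0 := by ring
  rw [e]
  refine le_of_tendsto_of_tendsto hL tot2 ?_
  filter_upwards [ea, eb, eventually_gt_atTop 0] with n hna hnb hn
  have hn0 : (0 : ℝ) < n := by exact_mod_cast hn
  set k := (pre x n).count true with hk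
  have hna' : 0 < -(q' : ℝ) * k + p' * n + (2 * p' - q') := by
    rw [lt_div_iff₀ hn0] at hna; linarith
  have hnb' : 0 < (q : ℝ) * k + -(p : ℝ) * n + (q - 2 * p) := by
    rw [lt_div_iff₀ hn0] at hnb; linarith
  have c1 : p * (n + 2) ≤ q * (k + 1) := by
    have : (p : ℝ) * (n + 2) ≤ q * (k + 1) := by linarith
    exact_mod_cast this
  have c2 : q' * (k + 1) ≤ p' * (n + 2) := by
    have : (q' : ℝ) * (k + 1) ≤ p' * (n + 2) := by linarith
    exact_mod_cast this
  obtain ⟨a, b, d1, d2, d3, d4⟩ := farey_counts far c1 c2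
  have hl : (pre x n ++ [false, true]).length = a * q + b * q' := by
    rw [List.length_append, pre_length, ← d1]; rfl
  have hc : (pre x n ++ [false, true]).count true = a * p + b * p' := by
    rw [List.count_append, ← d2, ← hk]
    simp
  have hu := ub a b _ hl hc
  have hv := ev_tr_val s (pre x n)
  have hlog := Real.log_le_log (tr_pos _) hu
  rw [Real.log_mul (by norm_num) (by positivity), Real.log_mul (by positivity) (by positivity),
    Real.log_pow, Real.log_pow] at hlog
  rw [← hk] at hv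
  have fin : val s (pre x n) ≤ k * s + (Real.log 2 + (a * Real.log rX + b * Real.log rY)) := by
    linarith
  rw [d3, d4] at fin
  have e3 : (1 * (k : ℝ) + 0 * n + 0) / n * s + (-(q' : ℝ) * k + p' * n + (2 * p' - q')) / n *
      Real.log rX + ((q : ℝ) * k + -(p : ℝ) * n + (q - 2 * p)) / n * Real.log rY +
      Real.log 2 / n = (k * s + (Real.log 2 + ((p' * (n + 2) - q' * (k + 1)) * Real.log rX +
        (q * (k + 1) - p * (n + 2)) * Real.log rY))) / n := by
    field_simp
    ring
  rw [e3]
  apply div_le_div_of_nonneg_right _ hn0.le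
  push_cast at fin
  linarith

/-- A node determines `log α` up to a small error. -/
lemma node_est {p q p' q' : ℕ} {rX rY E γ : ℝ} (D : NodeData p q p' q' rX rY E)
    (h1 : (p : ℝ) < γ * q) (h2 : γ * q' < p') {α : ℝ} (hα : 0 < α) (hr : IsOptRatio α γ) :
    |Real.log α - (q' * Real.log rX - q * Real.log rY)| ≤ ((q : ℝ) + q') * (E - 1) := by
  obtain ⟨x, hx⟩ := exists_we α hα
  have hrx := hr.2 x hx
  rw [we_iff α hα] at hx
  have hrx' : Tendsto (fun n => ((pre x n).count true : ℝ) / n) atTop (𝓝 γ) := by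
    refine hrx.congr (fun n => ?_)
    rw [oneRatio_eq]
  set s := Real.log α with hs
  have hX := D.rX1
  have hY := D.rY1
  have hE := D.E1
  have U1 := LL_upper (rX := rX) (rY := E * rY) (E := E) (γ := γ) (s := s) (by linarith)
    (by positivity) D.far D.ub1 h1 h2 hrx' hx
  have U2 := LL_upper (rX := E * rX) (rY := rY) (E := E) (γ := γ) (s := s) (by positivity)
    (by linarith) D.far D.ub2 h1 h2 hrx' hx
  have l1 := LL_lower s (by linarith : (0 : ℝ) < rX) D.lbX
  have l2 := LL_lower s (by linarith : (0 : ℝ) < rY) D.lbY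
  rw [Real.log_mul (by linarith) (by linarith)] at U1 U2
  have far : (p' : ℝ) * q = p * q' + 1 := by exact_mod_cast D.far
  have hlE : Real.log E ≤ E - 1 := Real.log_le_sub_one_of_pos (by linarith)
  have hlE0 : 0 ≤ Real.log E := Real.log_nonneg hE
  have q0 : (0 : ℝ) ≤ q := Nat.cast_nonneg q
  have q0' : (0 : ℝ) ≤ q' := Nat.cast_nonneg q'
  generalize Real.log E = lE at *
  generalize Real.log rX = lX at *
  generalize Real.log rY = lY at *
  generalize LL s = L at *
  have A0' : 0 < (p' : ℝ) - q' * γ := by linarith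
  have B0' : 0 < (q : ℝ) * γ - p := by linarith
  set e1 := q * L - p * s - lX with he1
  set e2 := q' * L - p' * s - lY with he2
  have e1n : 0 ≤ e1 := by rw [he1]; linarith
  have e2n : 0 ≤ e2 := by rw [he2]; linarith
  have tot : ((p' : ℝ) - q' * γ) * e1 + ((q : ℝ) * γ - p) * e2 = L - γ * s -
      ((p' : ℝ) - q' * γ) * lX - ((q : ℝ) * γ - p) * lY := by
    rw [he1, he2]
    linear_combination (L - γ * s) * far
  have b2 : e2 ≤ lE := by
    have : ((q : ℝ) * γ - p) * e2 ≤ ((q : ℝ) * γ - p) * lE := by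
      nlinarith [mul_nonneg A0'.le e1n]
    exact le_of_mul_le_mul_left this B0'
  have b1 : e1 ≤ lE := by
    have : ((p' : ℝ) - q' * γ) * e1 ≤ ((p' : ℝ) - q' * γ) * lE := by
      nlinarith [mul_nonneg B0'.le e2n]
    exact le_of_mul_le_mul_left this A0'
  have hsq : s - (q' * lX - q * lY) = q' * e1 - q * e2 := by
    rw [he1, he2]
    linear_combination (-s) * far
  rw [hsq, abs_le]
  constructor
  · nlinarith [mul_nonneg q0' e1n, mul_le_mul_of_nonneg_left b2 q0,
      mul_le_mul_of_nonneg_left hlE q0, mul_le_mul_of_nonneg_left hlE q0',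
      mul_nonneg q0' hlE0]
  · nlinarith [mul_nonneg q0 e2n, mul_le_mul_of_nonneg_left b1 q0',
      mul_le_mul_of_nonneg_left hlE q0, mul_le_mul_of_nonneg_left hlE q0',
      mul_nonneg q0 hlE0]

/-- Uniqueness: an irrational number in `(0, 1/2)` is the optimal ratio of at most one `α`. -/
theorem unique_alpha {γ α β : ℝ} (hγ : Irrational γ) (h0 : 0 < γ) (h1 : γ < 1 / 2) (hα : 0 ≤ α)
    (hβ : 0 ≤ β) (ha : IsOptRatio α γ) (hb : IsOptRatio β γ) : α = β := by
  have pos : ∀ a : ℝ, 0 ≤ a → IsOptRatio a γ → 0 < a := by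
    intro a h h'
    rcases h.lt_or_eq with h2 | h2
    · exact h2
    · rw [← h2] at h'
      exact absurd (ratio_zero h') h0.ne'
  have hα' := pos α hα ha
  have hβ' := pos β hβ hb
  have key : ∀ η : ℝ, 0 < η → |Real.log α - Real.log β| ≤ η := by
    intro η hη
    obtain ⟨p, q, p', q', rX, rY, E, D, i1, i2, i3, -⟩ := good_nodes hγ h0 h1 (η / 2) (by linarith)
    have k1 := node_est D i1 i2 hα' ha
    have k2 := node_est D i1 i2 hβ' hb
    rw [abs_le] at k1 k2 ⊢
    constructor <;> linarith [k1.1, k1.2, k2.1, k2.2]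
  have hlog : Real.log α = Real.log β := by
    have : |Real.log α - Real.log β| ≤ 0 := le_of_forall_pos_le_add (fun η hη => by
      simpa using key η hη)
    have := abs_nonpos_iff.mp this
    linarith
  exact Real.log_injOn_pos hα' hβ' hlog

end Pool.Agent.OJR
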